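import Pool.Agent.H3.SE.Dec
import Pool.Graph.R_seed8.TH757.GS.CONT

set_option autoImplicit false

/-! Assembly (adapted from `T2H54.SB.AsmA` and `T2H54.SB.AsmC`). -/

namespace Pool.Agent.H3.SE

open Complex Filter Topology MeasureTheory Set
open Pool.Agent.TH612.CF Pool.Agent.TH612.GS Pool.Agent.T2H54.SB
open Pool.Agent.W182.KO hiding ee SS_summable DD
open scoped ContDiff

noncomputable section

variable {k : ℕ}

/-- the exceptional set in the coordinates of the box -/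
def BadE (k : ℕ) (F : Set ℝ) (H T lam : ℝ) (U : Fin k ⊕ Fin k → ℝ) : Set (Fin k ⊕ Fin k → ℝ) :=
  {γ | (∀ i, 0 ≤ γ i ∧ γ i ≤ H) ∧ ∃ S : ℝ, 0 ≤ S ∧ S ≤ T ∧ lam < ‖RE F S (U + γ)‖}

/-- short integrals over the good heights -/
def ZI (F : Set ℝ) (A B : ℝ) (γ : Fin k ⊕ Fin k → ℝ) : ℝ :=
  ∫ t in A..B, F.indicator (fun t => ‖∏ j : Fin k, z (t + γ (Sum.inl j)) *
      (starRingEnd ℂ) (z (t + γ (Sum.inr j)))‖) t

open Classical in
/-- the pieces of the exceptional set -/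
lemma BadE_sub (hINV : S_INV) (hD : S_DIAG) (ψ : ℝ → ℝ) {F : Set ℝ} (hF : MeasurableSet F)
    {T H y m l2 lam : ℝ} {N J : ℕ}
    {U : Fin k ⊕ Fin k → ℝ} {C7 : ℝ} (hT : 3 ≤ T) (hH : 1 ≤ H)
    (hU : ∀ i, 0 ≤ U i ∧ U i + H ≤ T) (hy16 : 16 ≤ y) (hJ1 : 1 ≤ J) (hJl : y ^ 16 ≤ J)
    (hN1 : 1 ≤ N) (hN4 : 2 * (N : ℝ) ^ (3 * k) ≤ T / y ^ 4) (hC7 : 0 < C7)
    (h1 : ∀ v : ℝ, 1 ≤ |v| → |v| ≤ T → ‖riemannZeta (1 + I * v)‖ ≤ C7 * Real.log T)
    (hZ : (Fintype.card (Equiv.Perm (Fin k ⊕ Fin k)) : ℝ) * ZB k C7 T ≤ y) (hZ0 : 0 ≤ ZB k C7 T)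
    (hm : 0 ≤ m) (hvol : volume (Fᶜ ∩ Icc 0 T) ≤ ENNReal.ofReal m)
    (hlam : 8 * (T / y ^ 4) + l2 +
      m * ((Fintype.card (Equiv.Perm (Fin k ⊕ Fin k)) : ℝ) * ZB k C7 T) ≤ lam) :
    BadE k F H T lam U ⊆ (SepU k H U)ᶜ ∪ {γ | 1 / y ^ 4 < ‖SN N (U + γ) - SP ψ N (U + γ)‖} ∪
      {γ | 1 / y ^ 4 < ‖SP ψ N (U + γ) - GM N (U + γ) 0‖} ∪
      (SepU k H U ∩ {γ | 1 / y ^ 4 < ‖GM N (U + γ) 0 - zr (U + γ)‖}) ∪
      (⋃ i ∈ Finset.range (J + 1), {γ | T / y ^ 4 < ‖AE F N (i * (T / J)) (U + γ)‖}) ∪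
      (⋃ i ∈ Finset.range (J + 1), ⋃ π ∈ (Pk k)ᶜ, {γ | T / y ^ 8 < ‖IG (i * (T / J)) (U + γ) π‖}) ∪
      (⋃ i ∈ Finset.range J, {γ | T / y ^ 4 < ZI F (i * (T / J)) ((i + 1 : ℕ) * (T / J)) (U + γ)}) ∪
      {γ | l2 < PE F N T (U + γ)} := by
  intro γ hγ
  by_contra hcon
  simp only [mem_union, not_or, mem_iUnion, mem_ofPred_eq, not_exists, not_lt, mem_compl_iff,
    not_not, mem_inter_iff, not_and] at hcon
  obtain ⟨⟨⟨⟨⟨⟨⟨g1, g2⟩, g3⟩, g4⟩, g5⟩, g6⟩, g7⟩, g8⟩ := hcon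
  obtain ⟨hcube, S, hS0, hST, hS⟩ := hγ
  have g1' := SepU_SD hH hU g1
  have hy0 : 0 < y := by linarith
  have hJ : (0:ℝ) < J := by exact_mod_cast (by omega : 0 < J)
  have hTp : 0 < T := by linarith
  have hTJ : 0 < T / J := by positivity
  set B : ℝ := (Fintype.card (Equiv.Perm (Fin k ⊕ Fin k)) : ℝ) * ZB k C7 T with hB
  -- bound at the grid points
  have key1 : ∀ i ∈ Finset.range (J + 1), ‖RE F (i * (T / J)) (U + γ)‖ ≤ 6 * (T / y ^ 4) + l2 + m * B := by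
    intro i hi
    have hi' : (i:ℝ) ≤ J := by exact_mod_cast Nat.lt_succ_iff.1 (Finset.mem_range.1 hi)
    have hSi0 : 0 ≤ (i:ℝ) * (T / J) := by positivity
    have hSiT : (i:ℝ) * (T / J) ≤ T := by
      calc (i:ℝ) * (T / J) ≤ J * (T / J) := by gcongr
        _ = T := by field_simp
    have a1 := RE_le hF (N := N) hSi0 hSiT hT hC7 hm hvol h1 hZ0 g1'
    have a2 := DDA_le hINV hD ψ hN1 hSi0 hSiT hT hC7 h1 g1'
    have b1 := g5 i hi
    have b3 : T * ‖SN N (U + γ) - SP ψ N (U + γ)‖ ≤ T / y ^ 4 := by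
      calc _ ≤ T * (1 / y ^ 4) := by gcongr
        _ = _ := by ring
    have b4 : T * ‖SP ψ N (U + γ) - GM N (U + γ) 0‖ ≤ T / y ^ 4 := by
      calc _ ≤ T * (1 / y ^ 4) := by gcongr
        _ = _ := by ring
    have b5 : T * ‖GM N (U + γ) 0 - zr (U + γ)‖ ≤ T / y ^ 4 := by
      have := g4 g1
      calc _ ≤ T * (1 / y ^ 4) := by gcongr
        _ = _ := by ring
    have b6 : ZB k C7 T * ∑ π ∈ (Pk k)ᶜ, ‖IG (i * (T / J)) (U + γ) π‖ ≤ T / y ^ 4 := by
      have c1 : ∑ π ∈ (Pk k)ᶜ, ‖IG (i * (T / J)) (U + γ) π‖ ≤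
          (Fintype.card (Equiv.Perm (Fin k ⊕ Fin k)) : ℝ) * (T / y ^ 8) := by
        calc _ ≤ ∑ _π ∈ (Pk k)ᶜ, T / y ^ 8 := Finset.sum_le_sum fun π hπ => g6 i hi π hπ
          _ = ((Pk k)ᶜ.card : ℝ) * (T / y ^ 8) := by rw [Finset.sum_const, nsmul_eq_mul]
          _ ≤ _ := by
              gcongr
              exact_mod_cast Finset.card_le_univ _
      calc _ ≤ ZB k C7 T * ((Fintype.card (Equiv.Perm (Fin k ⊕ Fin k)) : ℝ) * (T / y ^ 8)) := by gcongr
        _ = ((Fintype.card (Equiv.Perm (Fin k ⊕ Fin k)) : ℝ) * ZB k C7 T) * (T / y ^ 8) := by ring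
        _ ≤ y * (T / y ^ 8) := by gcongr
        _ = T / y ^ 4 * (1 / y ^ 3) := by field_simp
        _ ≤ T / y ^ 4 * 1 := by
            gcongr
            rw [div_le_one (by positivity)]
            exact one_le_pow₀ (by linarith)
        _ = _ := mul_one _
    linarith
  -- the nearest grid point
  set i : ℕ := ⌊S / (T / J)⌋₊ with hi
  have hiS : (i:ℝ) * (T / J) ≤ S := by
    have := Nat.floor_le (a := S / (T / J)) (by positivity)
    rwa [← hi, le_div_iff₀ hTJ] at this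
  have hiS2 : S < ((i:ℝ) + 1) * (T / J) := by
    have := Nat.lt_floor_add_one (S / (T / J))
    rwa [← hi, div_lt_iff₀ hTJ] at this
  have hiJ : i ≤ J := by
    have h2 : (i:ℝ) * (T / J) ≤ J * (T / J) := by
      refine (hiS.trans hST).trans (le_of_eq ?_)
      field_simp
    have h3 := le_of_mul_le_mul_right h2 hTJ
    exact_mod_cast h3
  have hfin : ‖RE F S (U + γ)‖ ≤ 8 * (T / y ^ 4) + l2 + m * B := by
    have k1 := key1 i (Finset.mem_range.2 (by omega))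
    have hd := RE_diff (k := k) hF hiS hT hC7 h1 hZ0 g1'
    have k2 : (S - i * (T / J)) * (Fintype.card (Equiv.Perm (Fin k ⊕ Fin k)) * ZB k C7 T) ≤ T / y ^ 4 := by
      have d1 : S - i * (T / J) ≤ T / J := by linarith
      have d2 : T / (J:ℝ) ≤ T / y ^ 16 := by
        gcongr
      calc _ ≤ T / y ^ 16 * y := by
            refine mul_le_mul (d1.trans d2) hZ (by positivity) (by positivity)
        _ = T / y ^ 4 * (1 / y ^ 11) := by field_simp
        _ ≤ T / y ^ 4 * 1 := by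
            gcongr
            rw [div_le_one (by positivity)]
            exact one_le_pow₀ (by linarith)
        _ = _ := mul_one _
    have k3 : (∫ t in (i * (T / J))..S, F.indicator (fun t => ‖∏ j : Fin k, z (t + (U + γ) (Sum.inl j)) *
        (starRingEnd ℂ) (z (t + (U + γ) (Sum.inr j)))‖) t) ≤ T / y ^ 4 := by
      have hcn : Continuous fun t : ℝ => ‖∏ j : Fin k, z (t + (U + γ) (Sum.inl j)) *
          (starRingEnd ℂ) (z (t + (U + γ) (Sum.inr j)))‖ := by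
        have := (Zg_cont (U + γ)).norm
        simpa only [Zg_fz] using this
      rcases lt_or_eq_of_le hiJ with hlt | heq
      · refine le_trans ?_ (g7 i (Finset.mem_range.2 hlt))
        unfold ZI
        refine intervalIntegral.integral_mono_interval le_rfl hiS ?_ ?_ (ind_int hF hcn _ _)
        · push_cast; exact hiS2.le
        · exact Eventually.of_forall fun t => indicator_nonneg (fun _ _ => norm_nonneg _) _
      · have e : (i:ℝ) * (T / J) = S := by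
          refine le_antisymm hiS ?_
          rw [heq]
          refine hST.trans (le_of_eq ?_)
          field_simp
        rw [e, intervalIntegral.integral_same]
        positivity
    have k4 : ‖RE F S (U + γ)‖ ≤ ‖RE F (i * (T / J)) (U + γ)‖ +
        ‖RE F S (U + γ) - RE F (i * (T / J)) (U + γ)‖ := by
      have := norm_add_le (RE F (i * (T / J)) (U + γ)) (RE F S (U + γ) - RE F (i * (T / J)) (U + γ))
      rwa [add_sub_cancel] at this
    linarith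
  linarith

end

end Pool.Agent.H3.SE
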