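import Pool.Agent.H3.SE.Win

set_option autoImplicit false

/-! The measure of the bad heights, and the decomposition. -/

namespace Pool.Agent.H3.SE

open Complex Filter Topology MeasureTheory Set
open Pool.Agent.TH612.CF Pool.Agent.TH612.GS Pool.Agent.T2H54.SB
open Pool.Agent.W182.KO hiding ee SS_summable DD
open scoped ENNReal

noncomputable section

variable {k : ℕ}

lemma VV_bad {C T H u V0 : ℝ} (hT0 : 0 ≤ T) (hH0 : 0 ≤ H) (hu : 0 ≤ u) (huT : u + H ≤ T) (hV0 : 0 < V0)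
    (hSM : ∫ v in (0:ℝ)..(2 * T), ‖z v‖ ^ 2 ≤ C) :
    volume {t ∈ Icc 0 T | V0 < VV H u t} ≤ ENNReal.ofReal (H * C / V0) := by
  have hz : Continuous fun v : ℝ => ‖z v‖ ^ 2 := z_cont.norm.pow 2
  have hC : 0 ≤ C := le_trans (intervalIntegral.integral_nonneg (by linarith) fun v _ => sq_nonneg _) hSM
  have e1 : ∀ t, ENNReal.ofReal (VV H u t) =
      ∫⁻ y in Icc 0 H, ENNReal.ofReal (‖z (t + (u + y))‖ ^ 2) := fun t =>
    (Pool.Agent.TH521.GS.lint1 hH0 (hz.comp (by fun_prop : Continuous fun y : ℝ => t + (u + y)))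
      fun y => sq_nonneg _).symm
  have h1 : ∫⁻ t in Icc 0 T, ENNReal.ofReal (VV H u t) ≤ ENNReal.ofReal (H * C) := by
    simp_rw [e1]
    have hmeas : Measurable (Function.uncurry fun (t y : ℝ) =>
        ENNReal.ofReal (‖z (t + (u + y))‖ ^ 2)) :=
      Pool.Agent.TH521.GS.mor (hz.comp (by fun_prop : Continuous fun p : ℝ × ℝ => p.1 + (u + p.2)))
    rw [lintegral_lintegral_swap hmeas.aemeasurable]
    have h2 : ∀ y ∈ Icc 0 H, ∫⁻ t in Icc 0 T, ENNReal.ofReal (‖z (t + (u + y))‖ ^ 2) ≤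
        ENNReal.ofReal C := by
      intro y hy
      have hzc : Continuous fun t : ℝ => ‖z (t + (u + y))‖ ^ 2 :=
        hz.comp (by fun_prop : Continuous fun t : ℝ => t + (u + y))
      rw [Pool.Agent.TH521.GS.lint1 hT0 hzc fun t => sq_nonneg _]
      apply ENNReal.ofReal_le_ofReal
      refine le_trans ?_ hSM
      have h3 := intervalIntegral.integral_comp_add_right (a := 0) (b := T) (fun v => ‖z v‖ ^ 2) (u + y)
      refine (le_of_eq h3).trans ?_
      refine intervalIntegral.integral_mono_interval (by linarith [hy.1]) (by linarith [hy.1])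
        (by linarith [hy.2]) (Eventually.of_forall fun _ => sq_nonneg _) (hz.intervalIntegrable _ _)
    refine (setLIntegral_mono' measurableSet_Icc h2).trans ?_
    rw [lintegral_const, Measure.restrict_apply_univ, Real.volume_Icc, sub_zero,
      ← ENNReal.ofReal_mul hC, mul_comm]
  have h4 := meas_ge_le_lintegral_div (μ := volume.restrict (Icc 0 T))
    (f := fun t => ENNReal.ofReal (VV H u t)) (Pool.Agent.TH521.GS.mor (VV_cont H u)).aemeasurable
    (ε := ENNReal.ofReal V0) (by rw [Ne, ENNReal.ofReal_eq_zero, not_le]; exact hV0)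
    ENNReal.ofReal_ne_top
  have h5 : volume {t ∈ Icc 0 T | V0 < VV H u t} ≤
      (volume.restrict (Icc 0 T)) {t | ENNReal.ofReal V0 ≤ ENNReal.ofReal (VV H u t)} := by
    rw [Measure.restrict_apply' measurableSet_Icc]
    refine measure_mono ?_
    rintro t ⟨ht1, ht2⟩
    exact ⟨ENNReal.ofReal_le_ofReal ht2.le, ht1⟩
  refine (h5.trans h4).trans ?_
  refine (ENNReal.div_le_div_right h1 _).trans ?_
  rw [← ENNReal.ofReal_div_of_pos hV0]

lemma GF_bad {C T H V0 : ℝ} {U : Fin k ⊕ Fin k → ℝ} (hT0 : 0 ≤ T) (hH0 : 0 ≤ H)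
    (hU : ∀ i, 0 ≤ U i ∧ U i + H ≤ T) (hV0 : 0 < V0)
    (hSM : ∫ v in (0:ℝ)..(2 * T), ‖z v‖ ^ 2 ≤ C) :
    volume ((GF H V0 U)ᶜ ∩ Icc 0 T) ≤ ENNReal.ofReal (2 * k * (H * C / V0)) := by
  have hC : 0 ≤ C := le_trans (intervalIntegral.integral_nonneg (by linarith) fun v _ => sq_nonneg _) hSM
  have h1 : (GF H V0 U)ᶜ ∩ Icc 0 T ⊆ ⋃ i ∈ (Finset.univ : Finset (Fin k ⊕ Fin k)),
      {t ∈ Icc 0 T | V0 < VV H (U i) t} := by
    rintro t ⟨h1, h2⟩
    unfold GF at h1
    simp only [mem_compl_iff, mem_ofPred_eq, not_forall, not_le] at h1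
    obtain ⟨i, hi⟩ := h1
    simp only [mem_iUnion]
    exact ⟨i, Finset.mem_univ i, h2, hi⟩
  refine (measure_mono h1).trans ((measure_biUnion_finset_le _ _).trans ?_)
  refine (Finset.sum_le_sum fun i _ => VV_bad hT0 hH0 (hU i).1 (hU i).2 hV0 hSM).trans ?_
  rw [Finset.sum_const, Finset.card_univ, Fintype.card_sum, Fintype.card_fin, nsmul_eq_mul,
    ← ENNReal.ofReal_natCast, ← ENNReal.ofReal_mul (by positivity)]
  apply ENNReal.ofReal_le_ofReal
  push_cast
  apply le_of_eq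
  ring

/-- the short polynomials on windows -/
lemma vP : ∃ C : ℝ, 1 ≤ C ∧ ∀ (T H v : ℝ) (N : ℕ), 3 ≤ T → 1 ≤ H → H ≤ T → 1 ≤ N → (N:ℝ) ≤ H →
      ∫ y in (0:ℝ)..H, ‖PN N (v + y)‖ ^ 2 ≤ C * Real.log T ^ 3 * H := by
  obtain ⟨C1, hC1, h1⟩ := pMVW
  refine ⟨16 * C1 + 1, by linarith, ?_⟩
  intro T H v N hT3 hH hHT hN hNH
  have hTp : 0 < T := by linarith
  have hN0 : (0:ℝ) < N := by exact_mod_cast hN
  have hN1 : (1:ℝ) ≤ N := by exact_mod_cast hN
  have e : ∀ u : ℝ, PN N u = ∑ n ∈ Finset.Icc 1 N, (n : ℂ) ^ (-(1 / 2 : ℂ)) *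
      (n : ℂ) ^ (-(I * (u : ℂ))) := by
    intro u
    unfold PN zN
    refine Finset.sum_congr rfl fun n hn => ?_
    have hn0 : (n : ℂ) ≠ 0 := by
      have := (Finset.mem_Icc.1 hn).1
      exact_mod_cast (by omega : n ≠ 0)
    rw [← Complex.cpow_add _ _ hn0]
    congr 1
    ring
  have e2 : ∫ y in (0:ℝ)..H, ‖PN N (v + y)‖ ^ 2 = ∫ y in v..(v + H), ‖PN N y‖ ^ 2 := by
    rw [intervalIntegral.integral_comp_add_left (fun y => ‖PN N y‖ ^ 2) v, add_zero]
  rw [e2]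
  simp_rw [e]
  refine (h1 v H N (fun n => (n : ℂ) ^ (-(1 / 2 : ℂ))) (by linarith) hN).trans ?_
  have g3 : ∀ n ∈ Finset.Icc 1 N, (H + n) * ‖(n : ℂ) ^ (-(1 / 2 : ℂ))‖ ^ 2 =
      H * (n : ℝ)⁻¹ + 1 := by
    intro n hn
    have hn0 : 0 < n := (Finset.mem_Icc.1 hn).1
    have hn0' : (0 : ℝ) < n := by exact_mod_cast hn0
    rw [Complex.norm_natCast_cpow_of_pos hn0, ← Real.rpow_natCast, ← Real.rpow_mul hn0'.le]
    have e3 : (-(1 / 2 : ℂ)).re * ((2 : ℕ) : ℝ) = -1 := by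
      norm_num
    rw [e3, Real.rpow_neg_one]
    field_simp
  rw [Finset.sum_congr rfl g3, Finset.sum_add_distrib, ← Finset.mul_sum]
  have g4 : ∑ n ∈ Finset.Icc 1 N, ((n : ℝ))⁻¹ ≤ 1 + Real.log N := by
    have := harmonic_le_one_add_log N
    rw [harmonic_eq_sum_Icc] at this
    push_cast at this
    exact this
  have hlog : 1 ≤ Real.log T := by
    rw [Real.le_log_iff_exp_le hTp]
    have := Real.exp_one_lt_d9
    linarith
  have g5 : Real.log N ≤ Real.log T := Real.log_le_log hN0 (hNH.trans hHT)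
  have g50 : 0 ≤ Real.log N := Real.log_nonneg hN1
  have g7 : ∑ n ∈ Finset.Icc 1 N, (1 : ℝ) = N := by simp
  rw [g7]
  have hH0 : 0 ≤ H := by linarith
  calc C1 * (1 + Real.log N) ^ 2 * (H * ∑ n ∈ Finset.Icc 1 N, ((n : ℝ))⁻¹ + N)
      ≤ C1 * (2 * Real.log T) ^ 2 * (H * (2 * Real.log T) + H * (2 * Real.log T)) := by
        gcongr
        · linarith
        · linarith
        · nlinarith
    _ = (16 * C1) * Real.log T ^ 3 * H := by ring
    _ ≤ (16 * C1 + 1) * Real.log T ^ 3 * H := by gcongr; linarith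

/-- the difference of the remainder and of its first part -/
lemma DDA_le (hINV : S_INV) (hD : S_DIAG) (ψ : ℝ → ℝ) {N : ℕ} (hN : 1 ≤ N) {S L T C : ℝ} (hS : 0 ≤ S)
    (hSL : S ≤ L) (hT : 3 ≤ T) (hC : 0 < C)
    (h1 : ∀ v : ℝ, 1 ≤ |v| → |v| ≤ T → ‖riemannZeta (1 + I * v)‖ ≤ C * Real.log T)
    {γ : Fin k ⊕ Fin k → ℝ} (hγ : SD T γ) :
    ‖DD S γ - A1 N S γ‖ ≤ 2 * (N : ℝ) ^ (3 * k) + L * ‖SN N γ - SP ψ N γ‖ +
      L * ‖SP ψ N γ - GM N γ 0‖ + L * ‖GM N γ 0 - zr γ‖ +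
      ZB k C T * ∑ π ∈ (Pk k)ᶜ, ‖IG S γ π‖ := by
  rw [DD_eq hINV]
  set I2 : ℂ := ∫ t in (0:ℝ)..S, ∏ j : Fin k, PN N (t + γ (Sum.inl j)) *
      (starRingEnd ℂ) (PN N (t + γ (Sum.inr j))) with hI2
  have e1 : (∫ t in (0:ℝ)..S, Zg γ t) = A1 N S γ + I2 := by
    unfold A1
    simp only [Zg_fz]
    ring
  have e2 : (∫ t in (0:ℝ)..S, Zg γ t) - S * zr γ -
      ((Nat.factorial k : ℂ) ^ 2)⁻¹ * ∑ π ∈ (Pk k)ᶜ, IG S γ π * zp γ π - A1 N S γ =
      (I2 - S * SN N γ) + S * (SN N γ - SP ψ N γ) + S * (SP ψ N γ - GM N γ 0) +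
      S * (GM N γ 0 - zr γ) - ((Nat.factorial k : ℂ) ^ 2)⁻¹ * ∑ π ∈ (Pk k)ᶜ, IG S γ π * zp γ π := by
    rw [e1]; ring
  rw [e2]
  have n1 : ∀ w : ℂ, ‖(S:ℂ) * w‖ ≤ L * ‖w‖ := by
    intro w
    rw [norm_mul, Complex.norm_real, Real.norm_of_nonneg hS]
    gcongr
  have n2 : ‖((Nat.factorial k : ℂ) ^ 2)⁻¹ * ∑ π ∈ (Pk k)ᶜ, IG S γ π * zp γ π‖ ≤
      ZB k C T * ∑ π ∈ (Pk k)ᶜ, ‖IG S γ π‖ := by
    rw [norm_mul]
    calc _ ≤ 1 * ‖∑ π ∈ (Pk k)ᶜ, IG S γ π * zp γ π‖ := by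
          gcongr
          exact inv_le_one
      _ ≤ 1 * ∑ π ∈ (Pk k)ᶜ, ‖IG S γ π * zp γ π‖ := by
          gcongr
          exact norm_sum_le _ _
      _ ≤ 1 * ∑ π ∈ (Pk k)ᶜ, ‖IG S γ π‖ * ZB k C T := by
          gcongr with π hπ
          rw [norm_mul]
          gcongr
          exact zp_bd' hT hC h1 hγ π
      _ = _ := by rw [one_mul, ← Finset.sum_mul, mul_comm]
  have n3 := hD k N S γ hN hS
  have n4 := n1 (SN N γ - SP ψ N γ)
  have n5 := n1 (SP ψ N γ - GM N γ 0)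
  have n6 := n1 (GM N γ 0 - zr γ)
  refine (norm_sub_le _ _).trans (add_le_add ?_ n2)
  refine (norm_add_le _ _).trans (add_le_add ?_ n6)
  refine (norm_add_le _ _).trans (add_le_add ?_ n5)
  exact (norm_add_le _ _).trans (add_le_add n3 n4)

/-- the product of the short polynomials -/
def PPr (N : ℕ) (γ : Fin k ⊕ Fin k → ℝ) (t : ℝ) : ℂ :=
  ∏ j : Fin k, PN N (t + γ (Sum.inl j)) * (starRingEnd ℂ) (PN N (t + γ (Sum.inr j)))

lemma PPr_cont (N : ℕ) (γ : Fin k ⊕ Fin k → ℝ) : Continuous (PPr N γ) := by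
  unfold PPr
  refine continuous_finsetProd _ fun j _ => ?_
  exact ((PN_cont N).comp (by fun_prop)).mul (Complex.continuous_conj.comp ((PN_cont N).comp (by fun_prop)))

/-- the prediction -/
def rec (γ : Fin k ⊕ Fin k → ℝ) (t : ℝ) : ℂ :=
  ((Nat.factorial k : ℂ) ^ 2)⁻¹ * Qs t (fun i => (γ i : ℂ))

lemma rec_cont (γ : Fin k ⊕ Fin k → ℝ) : Continuous (rec γ) := continuous_const.mul (Qs_cont γ)

/-- the remainder on the set `F` -/
def RE (F : Set ℝ) (S : ℝ) (γ : Fin k ⊕ Fin k → ℝ) : ℂ :=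
  ∫ t in (0:ℝ)..S, F.indicator (fun t => Zg γ t - rec γ t) t

lemma rec_le {T C : ℝ} (hT : 3 ≤ T) (hC : 0 < C)
    (h1 : ∀ v : ℝ, 1 ≤ |v| → |v| ≤ T → ‖riemannZeta (1 + I * v)‖ ≤ C * Real.log T)
    {γ : Fin k ⊕ Fin k → ℝ} (hγ : SD T γ) (t : ℝ) :
    ‖rec γ t‖ ≤ Fintype.card (Equiv.Perm (Fin k ⊕ Fin k)) * ZB k C T := by
  unfold rec
  rw [norm_mul, Qs_zp]
  calc _ ≤ 1 * ∑ π : Equiv.Perm (Fin k ⊕ Fin k), ‖GG t (fun i => (γ i : ℂ)) π * zp γ π‖ := by
        gcongr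
        · exact inv_le_one
        · exact norm_sum_le _ _
    _ ≤ 1 * ∑ _π : Equiv.Perm (Fin k ⊕ Fin k), ZB k C T := by
        gcongr with π hπ
        rw [norm_mul, norm_GG, one_mul]
        exact zp_bd' hT hC h1 hγ π
    _ = _ := by rw [one_mul, Finset.sum_const, Finset.card_univ, nsmul_eq_mul]

lemma ind_int {F : Set ℝ} (hF : MeasurableSet F) {E : Type} [NormedAddCommGroup E] {g : ℝ → E}
    (hg : Continuous g) (a b : ℝ) : IntervalIntegrable (F.indicator g) volume a b :=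
  ⟨(hg.intervalIntegrable a b).1.indicator hF, (hg.intervalIntegrable a b).2.indicator hF⟩

/-- the integral over the bad heights of the product of the short polynomials -/
def PE (F : Set ℝ) (N : ℕ) (T : ℝ) (γ : Fin k ⊕ Fin k → ℝ) : ℝ :=
  ∫ t in (0:ℝ)..T, Fᶜ.indicator (fun t => ‖PPr N γ t‖) t

lemma RE_le {F : Set ℝ} (hF : MeasurableSet F) {N : ℕ} {S T C m : ℝ} (hS : 0 ≤ S) (hST : S ≤ T)
    (hT : 3 ≤ T) (hC : 0 < C) (hm : 0 ≤ m) (hvol : volume (Fᶜ ∩ Icc 0 T) ≤ ENNReal.ofReal m)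
    (h1 : ∀ v : ℝ, 1 ≤ |v| → |v| ≤ T → ‖riemannZeta (1 + I * v)‖ ≤ C * Real.log T)
    (hZ0 : 0 ≤ ZB k C T)
    {γ : Fin k ⊕ Fin k → ℝ} (hγ : SD T γ) :
    ‖RE F S γ‖ ≤ ‖AE F N S γ‖ + ‖DD S γ - A1 N S γ‖ + PE F N T γ +
      m * (Fintype.card (Equiv.Perm (Fin k ⊕ Fin k)) * ZB k C T) := by
  set B : ℝ := Fintype.card (Equiv.Perm (Fin k ⊕ Fin k)) * ZB k C T with hB
  have hB0 : 0 ≤ B := by positivity
  have hT0 : 0 ≤ T := by linarith
  have hz := Zg_cont γ
  have hr := rec_cont γ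
  have hp := PPr_cont N γ
  have hzp : Continuous fun t => Zg γ t - PPr N γ t := hz.sub hp
  have hpr : Continuous fun t => PPr N γ t - rec γ t := hp.sub hr
  have hzr : Continuous fun t => Zg γ t - rec γ t := hz.sub hr
  have hpn : Continuous fun t => ‖PPr N γ t‖ := hp.norm
  have e1 : RE F S γ = AE F N S γ + (DD S γ - A1 N S γ) -
      ∫ t in (0:ℝ)..S, Fᶜ.indicator (fun t => PPr N γ t - rec γ t) t := by
    have e2 : AE F N S γ = ∫ t in (0:ℝ)..S, F.indicator (fun t => Zg γ t - PPr N γ t) t := by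
      unfold AE PPr
      simp only [Zg_fz]
    have e3 : DD S γ - A1 N S γ = ∫ t in (0:ℝ)..S, (PPr N γ t - rec γ t) := by
      have : A1 N S γ = ∫ t in (0:ℝ)..S, (Zg γ t - PPr N γ t) := by
        have hz' : Continuous fun t : ℝ => ∏ j : Fin k, z (t + γ (Sum.inl j)) *
            (starRingEnd ℂ) (z (t + γ (Sum.inr j))) := by simpa only [Zg_fz] using hz
        have hp' : Continuous fun t : ℝ => ∏ j : Fin k, PN N (t + γ (Sum.inl j)) *
            (starRingEnd ℂ) (PN N (t + γ (Sum.inr j))) := hp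
        unfold A1
        rw [← intervalIntegral.integral_sub (hz'.intervalIntegrable _ _) (hp'.intervalIntegrable _ _)]
        simp only [Zg_fz]
        rfl
      have h4 : DD S γ = ∫ t in (0:ℝ)..S, (Zg γ t - rec γ t) := rfl
      rw [this, h4, ← intervalIntegral.integral_sub (hzr.intervalIntegrable _ _)
        (hzp.intervalIntegrable _ _)]
      refine intervalIntegral.integral_congr fun t _ => ?_
      ring
    have i1 : IntervalIntegrable (fun t => F.indicator (fun t => Zg γ t - PPr N γ t) t) volume 0 S :=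
      ind_int hF hzp _ _
    have i2 : IntervalIntegrable (fun t => PPr N γ t - rec γ t) volume 0 S := hpr.intervalIntegrable _ _
    have i3 : IntervalIntegrable (fun t => Fᶜ.indicator (fun t => PPr N γ t - rec γ t) t) volume 0 S :=
      ind_int hF.compl hpr _ _
    rw [e2, e3, ← intervalIntegral.integral_add i1 i2, ← intervalIntegral.integral_sub (i1.add i2) i3]
    unfold RE
    refine intervalIntegral.integral_congr fun t _ => ?_
    by_cases ht : t ∈ F
    · have ht' : t ∉ Fᶜ := fun h => h ht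
      simp only [indicator_of_mem ht, indicator_of_notMem ht']
      ring
    · have ht' : t ∈ Fᶜ := ht
      simp only [indicator_of_notMem ht, indicator_of_mem ht']
      ring
  have hb : ‖∫ t in (0:ℝ)..S, Fᶜ.indicator (fun t => PPr N γ t - rec γ t) t‖ ≤ PE F N T γ + m * B := by
    have s1 : ‖∫ t in (0:ℝ)..S, Fᶜ.indicator (fun t => PPr N γ t - rec γ t) t‖ ≤
        ∫ t in (0:ℝ)..S, (Fᶜ.indicator (fun t => ‖PPr N γ t‖) t + Fᶜ.indicator (fun _ => B) t) := by
      refine (intervalIntegral.norm_integral_le_integral_norm hS).trans ?_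
      refine intervalIntegral.integral_mono_on hS (ind_int hF.compl hpr _ _).norm
        ((ind_int hF.compl hpn _ _).add (ind_int hF.compl continuous_const _ _)) fun t _ => ?_
      by_cases ht : t ∈ Fᶜ
      · simp only [indicator_of_mem ht]
        exact (norm_sub_le _ _).trans (add_le_add le_rfl (rec_le hT hC h1 hγ t))
      · simp only [indicator_of_notMem ht]
        simp
    have s2 : ∫ t in (0:ℝ)..S, (Fᶜ.indicator (fun t => ‖PPr N γ t‖) t + Fᶜ.indicator (fun _ => B) t) ≤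
        ∫ t in (0:ℝ)..T, (Fᶜ.indicator (fun t => ‖PPr N γ t‖) t + Fᶜ.indicator (fun _ => B) t) := by
      refine intervalIntegral.integral_mono_interval le_rfl hS hST (Eventually.of_forall fun t => ?_)
        ((ind_int hF.compl hpn _ _).add (ind_int hF.compl continuous_const _ _))
      exact add_nonneg (indicator_nonneg (fun _ _ => norm_nonneg _) _)
        (indicator_nonneg (fun _ _ => hB0) _)
    refine (s1.trans s2).trans ?_
    rw [intervalIntegral.integral_add (ind_int hF.compl hpn _ _)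
      (ind_int hF.compl continuous_const _ _)]
    refine add_le_add le_rfl ?_
    rw [intervalIntegral.integral_of_le hT0, setIntegral_indicator hF.compl, setIntegral_const,
      smul_eq_mul]
    refine mul_le_mul_of_nonneg_right ?_ hB0
    have h5 : volume (Ioc 0 T ∩ Fᶜ) ≤ ENNReal.ofReal m := by
      refine (measure_mono ?_).trans hvol
      exact fun t ht => ⟨ht.2, Ioc_subset_Icc_self ht.1⟩
    have h6 := ENNReal.toReal_mono ENNReal.ofReal_ne_top h5
    rwa [ENNReal.toReal_ofReal hm] at h6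
  rw [e1]
  refine (norm_sub_le _ _).trans ?_
  have h7 := norm_add_le (AE F N S γ) (DD S γ - A1 N S γ)
  linarith

lemma RE_diff {F : Set ℝ} (hF : MeasurableSet F) {A B T C : ℝ} (hAB : A ≤ B) (hT : 3 ≤ T) (hC : 0 < C)
    (h1 : ∀ v : ℝ, 1 ≤ |v| → |v| ≤ T → ‖riemannZeta (1 + I * v)‖ ≤ C * Real.log T)
    (hZ0 : 0 ≤ ZB k C T)
    {γ : Fin k ⊕ Fin k → ℝ} (hγ : SD T γ) :
    ‖RE F B γ - RE F A γ‖ ≤ (∫ t in A..B, F.indicator (fun t => ‖∏ j : Fin k, z (t + γ (Sum.inl j)) *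
      (starRingEnd ℂ) (z (t + γ (Sum.inr j)))‖) t) +
      (B - A) * (Fintype.card (Equiv.Perm (Fin k ⊕ Fin k)) * ZB k C T) := by
  set K : ℝ := Fintype.card (Equiv.Perm (Fin k ⊕ Fin k)) * ZB k C T with hK
  have hK0 : 0 ≤ K := by positivity
  have hz := Zg_cont γ
  have hr := rec_cont γ
  have hzr : Continuous fun t => Zg γ t - rec γ t := hz.sub hr
  have e1 : RE F B γ - RE F A γ = ∫ t in A..B, F.indicator (fun t => Zg γ t - rec γ t) t := by
    unfold RE
    exact intervalIntegral.integral_interval_sub_left (ind_int hF hzr _ _) (ind_int hF hzr _ _)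
  rw [e1]
  refine (intervalIntegral.norm_integral_le_integral_norm hAB).trans ?_
  have hzn : Continuous fun t => ‖∏ j : Fin k, z (t + γ (Sum.inl j)) *
      (starRingEnd ℂ) (z (t + γ (Sum.inr j)))‖ := by
    have := (Zg_cont γ).norm
    simpa only [Zg_fz] using this
  calc ∫ t in A..B, ‖F.indicator (fun t => Zg γ t - rec γ t) t‖
      ≤ ∫ t in A..B, (F.indicator (fun t => ‖∏ j : Fin k, z (t + γ (Sum.inl j)) *
      (starRingEnd ℂ) (z (t + γ (Sum.inr j)))‖) t + K) := by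
        refine intervalIntegral.integral_mono_on hAB (ind_int hF hzr _ _).norm
          ((ind_int hF hzn _ _).add (continuous_const.intervalIntegrable _ _)) fun t _ => ?_
        by_cases ht : t ∈ F
        · simp only [indicator_of_mem ht]
          refine (norm_sub_le _ _).trans (add_le_add ?_ (rec_le hT hC h1 hγ t))
          simp only [Zg_fz, le_refl]
        · simp only [indicator_of_notMem ht]
          simpa using hK0
    _ = _ := by
        rw [intervalIntegral.integral_add (ind_int hF hzn _ _) (continuous_const.intervalIntegrable _ _),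
          intervalIntegral.integral_const, smul_eq_mul]

end

end Pool.Agent.H3.SE
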