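import Pool.Agent.H3.SE.Asm

set_option autoImplicit false

/-! The measure of the exceptional set (adapted from `T2H54.SB.AsmC`). -/

namespace Pool.Agent.H3.SE

open Complex Filter Topology MeasureTheory Set
open Pool.Agent.TH612.CF Pool.Agent.TH612.GS Pool.Agent.T2H54.SB
open Pool.Agent.W182.KO hiding ee SS_summable DD
open scoped ContDiff

noncomputable section

variable {k : ℕ}

lemma ii_cont {X : Type} {E : Type} [TopologicalSpace X] [FirstCountableTopology X] [LocallyCompactSpace X]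
    [NormedAddCommGroup E] [NormedSpace ℝ E] {f : X → ℝ → E} (hf : Continuous (Function.uncurry f))
    {F : Set ℝ} (hF : MeasurableSet F) {A B : ℝ} (hAB : A ≤ B) :
    Continuous fun x => ∫ t in A..B, F.indicator (f x) t := by
  have e1 : (fun x => ∫ t in A..B, F.indicator (f x) t) =
      fun x => ∫ t in Icc A B, f x t ∂(volume.restrict F) := by
    funext x
    rw [intervalIntegral.integral_of_le hAB, ← integral_Icc_eq_integral_Ioc, setIntegral_indicator hF,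
      Measure.restrict_restrict measurableSet_Icc]
  rw [e1]
  exact continuous_parametric_integral_of_continuous hf isCompact_Icc

lemma prodz_cont {f : ℝ → ℂ} (hf : Continuous f) :
    Continuous (Function.uncurry fun (γ : Fin k ⊕ Fin k → ℝ) (t : ℝ) =>
      ∏ j : Fin k, f (t + γ (Sum.inl j)) * (starRingEnd ℂ) (f (t + γ (Sum.inr j)))) := prod2_cont hf

lemma AE_cont {F : Set ℝ} (hF : MeasurableSet F) (N : ℕ) {S : ℝ} (hS : 0 ≤ S) :
    Continuous fun γ : Fin k ⊕ Fin k → ℝ => AE F N S γ := by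
  unfold AE
  exact ii_cont (f := fun (γ : Fin k ⊕ Fin k → ℝ) (t : ℝ) => (∏ j : Fin k, z (t + γ (Sum.inl j)) *
      (starRingEnd ℂ) (z (t + γ (Sum.inr j)))) -
    ∏ j : Fin k, PN N (t + γ (Sum.inl j)) * (starRingEnd ℂ) (PN N (t + γ (Sum.inr j))))
    ((prodz_cont z_cont).sub (prodz_cont (PN_cont N))) hF hS

lemma ZI_cont {F : Set ℝ} (hF : MeasurableSet F) {A B : ℝ} (hAB : A ≤ B) :
    Continuous fun γ : Fin k ⊕ Fin k → ℝ => ZI F A B γ := by
  unfold ZI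
  exact ii_cont (f := fun (γ : Fin k ⊕ Fin k → ℝ) (t : ℝ) => ‖∏ j : Fin k, z (t + γ (Sum.inl j)) *
      (starRingEnd ℂ) (z (t + γ (Sum.inr j)))‖) (prodz_cont z_cont).norm hF hAB

lemma PE_cont {F : Set ℝ} (hF : MeasurableSet F) (N : ℕ) {T : ℝ} (hT : 0 ≤ T) :
    Continuous fun γ : Fin k ⊕ Fin k → ℝ => PE F N T γ := by
  unfold PE PPr
  exact ii_cont (f := fun (γ : Fin k ⊕ Fin k → ℝ) (t : ℝ) => ‖∏ j : Fin k, PN N (t + γ (Sum.inl j)) *
      (starRingEnd ℂ) (PN N (t + γ (Sum.inr j)))‖) (prodz_cont (PN_cont N)).norm hF.compl hT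

lemma fz_U (f : ℝ → ℂ) (U γ : Fin k ⊕ Fin k → ℝ) (t : ℝ) : ∏ i, fz k f i (U i + (t + γ i)) =
    ∏ j : Fin k, f (t + (U + γ) (Sum.inl j)) * (starRingEnd ℂ) (f (t + (U + γ) (Sum.inr j))) := by
  rw [← fz_prod f t (U + γ)]
  refine Finset.prod_congr rfl fun i _ => ?_
  rw [Pi.add_apply]
  congr 1
  ring

theorem z2E (k : ℕ) {H V0 A B : ℝ} (U : Fin k ⊕ Fin k → ℝ) (hH : 0 ≤ H) (hAB : A ≤ B) (hV0 : 0 ≤ V0) :
    ∫⁻ γ, ENNReal.ofReal (ZI (GF H V0 U) A B (U + γ) ^ 2) ∂(mP (Fin k ⊕ Fin k) H) ≤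
      ENNReal.ofReal ((B - A) ^ 2 * V0 ^ (2 * k)) := by
  have e0 : ∀ u t y : ℝ, u + (t + y) = t + (u + y) := fun u t y => by ring
  have key := rep2F (Fin k ⊕ Fin k) (fun i v => fz k z i (U i + v)) (GF H V0 U)
    (GF_closed H V0 U).measurableSet H A B V0 (B - A) hH hAB hV0 (by linarith)
    (fun i => z_shift_cont (fz_cont z_cont i) _) ?_ ?_
  · simp only [fz_U] at key
    have hc : Fintype.card (Fin k ⊕ Fin k) = 2 * k := by
      rw [Fintype.card_sum, Fintype.card_fin]; ring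
    rw [hc] at key
    exact key
  · refine (measure_mono inter_subset_right).trans (le_of_eq ?_)
    rw [Real.volume_Icc]
  · intro i t _ ht
    have h2 := ht i
    unfold VV at h2
    simp only [fz_norm, e0]
    exact h2

theorem pE (k : ℕ) {F : Set ℝ} (hF : MeasurableSet F) {H T VP m : ℝ} {N : ℕ} (U : Fin k ⊕ Fin k → ℝ)
    (hH : 0 ≤ H) (hT : 0 ≤ T)
    (hVP0 : 0 ≤ VP) (hm : 0 ≤ m) (hvol : volume (Fᶜ ∩ Icc 0 T) ≤ ENNReal.ofReal m)
    (hP : ∀ v, ∫ y in (0:ℝ)..H, ‖PN N (v + y)‖ ^ 2 ≤ VP) :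
    ∫⁻ γ, ENNReal.ofReal (PE F N T (U + γ) ^ 2) ∂(mP (Fin k ⊕ Fin k) H) ≤
      ENNReal.ofReal (m ^ 2 * VP ^ (2 * k)) := by
  have key := rep2F (Fin k ⊕ Fin k) (fun i v => fz k (PN N) i (U i + v)) Fᶜ
    hF.compl H 0 T VP m hH hT hVP0 hm
    (fun i => z_shift_cont (fz_cont (PN_cont N) i) _) hvol ?_
  · simp only [fz_U] at key
    have hc : Fintype.card (Fin k ⊕ Fin k) = 2 * k := by
      rw [Fintype.card_sum, Fintype.card_fin]; ring
    rw [hc] at key
    exact key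
  · intro i t _ _
    simp only [fz_norm, ← add_assoc]
    exact hP _

set_option maxHeartbeats 4000000 in
theorem mainE (k : ℕ) (hk : 1 ≤ k) {c : ℝ} (hc : 0 < c) :
    ∃ e δ : ℝ, 0 < e ∧ 0 < δ ∧ ∃ T₀ : ℝ, ∀ (T H : ℝ) (U : Fin k ⊕ Fin k → ℝ), T₀ ≤ T →
      T ^ c ≤ H → H ≤ T → (∀ i, 0 ≤ U i ∧ U i + H ≤ T) →
      volume ((GF H (T ^ e * H) U)ᶜ ∩ Icc 0 T) ≤ ENNReal.ofReal (T ^ (1 - δ)) ∧
      mP (Fin k ⊕ Fin k) H (BadE k (GF H (T ^ e * H) U) H T (T ^ (1 - δ)) U) ≤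
        ENNReal.ofReal (H ^ (2 * k) * T ^ (-δ)) := by
  classical
  set c' : ℝ := min c (1 / 4) with hc'
  have hc'0 : 0 < c' := lt_min hc (by norm_num)
  have hc'4 : c' ≤ 1 / 4 := min_le_right _ _
  have hc'c : c' ≤ c := min_le_left _ _
  obtain ⟨θ, hθ, hθ1, hpar⟩ := paramsH k hc'0 hc'4
  have hk0 : (0:ℝ) ≤ k := Nat.cast_nonneg k
  set e : ℝ := θ / (8 * (k + 1)) with he
  have he0 : 0 < e := by positivity
  have heθ : e ≤ θ / 8 := by
    rw [he, div_le_div_iff₀ (by positivity) (by norm_num)]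
    have hθk : 0 ≤ θ * k := mul_nonneg hθ.le hk0
    linarith only [hθk]
  have he1 : e ≤ 1 := by linarith
  have h2ke : 2 * k * e ≤ θ / 2 := by
    rw [he, ← mul_div_assoc, div_le_div_iff₀ (by positivity) (by norm_num)]
    have hθk : 0 ≤ θ * k := mul_nonneg hθ.le hk0
    linarith only [hθk, hθ]
  obtain ⟨ψ, hψ⟩ := exists_cut
  obtain ⟨Cp, hCp, hvP⟩ := vP
  obtain ⟨Cs, Ts, hCs, hTs, hsm⟩ := Pool.Agent.H3.SQ.aSM
  obtain ⟨C1, T1, hC1, hT1, h1⟩ := z1E k
  obtain ⟨C3, hC3, h3⟩ := Pool.Agent.T2H54.SB.SSU.pSSU k ψ hψ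
  obtain ⟨C4, M0, hC4, hM0, h4⟩ := Pool.Agent.T2H54.SB.A4U.pA4U Pool.Agent.TH757.GS.t_CONT k ψ hψ
  obtain ⟨C5, T5, B5, hC5, hT5, h5⟩ := Pool.Agent.T2H54.SB.ZMU.pZMU pMVW k
  obtain ⟨C7, T7, hC7, hT7, h7⟩ := Pool.Agent.H3.SQ.aONE
  have hNS := Pool.Agent.T2H54.SB.NSU.pNSU
  have hINV := Pool.Agent.H3.SQ.aINV
  have hD := Pool.Agent.TH509.GS.t_DIAG
  set P0 : ℝ := (Fintype.card (Equiv.Perm (Fin k ⊕ Fin k)) : ℝ) with hP0
  have hP0' : 0 ≤ P0 := Nat.cast_nonneg _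
  set Z7 : ℝ := P0 * (BF k (1 / 8) * C7 ^ (k ^ 2)) with hZ7
  have hZ7' : 0 ≤ Z7 := mul_nonneg hP0' (mul_nonneg (BF_nonneg _ _) (by positivity))
  set Ct : ℝ := C1 + C3 + C4 + C5 + P0 * 688 + Z7 + 8 * k ^ 2 with hCt
  set Bt : ℕ := 4 + B5 + 2 + k ^ 2 with hBt
  obtain ⟨T0, hT0⟩ := hpar Ct Bt M0
  obtain ⟨Tw, hTw⟩ := eventually_atTop.1
    ((tendsto_rpow_atTop (half_pos hθ)).eventually_ge_atTop ((2:ℝ) ^ (2 * k)))
  have he8 : 0 < e / 8 := by positivity
  obtain ⟨Ta, hTa⟩ := eventually_atTop.1 ((tendsto_rpow_atTop he8).eventually_ge_atTop 10)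
  obtain ⟨Tb, hTb⟩ := eventually_atTop.1 (log_ev (2 * k * Cs) 1 (θ := e / 4) (by positivity))
  obtain ⟨Tc, hTc⟩ := eventually_atTop.1 (log_ev Z7 (k ^ 2) (θ := e / 4) (by positivity))
  obtain ⟨Td, hTd⟩ := eventually_atTop.1 (log_ev (Cp ^ (2 * k)) (3 * (2 * k)) (θ := e / 4) (by positivity))
  obtain ⟨Te, hTe⟩ := eventually_atTop.1 (log_ev Cp 3 (θ := e) he0)
  set TT : ℝ := T0 ⊔ T1 ⊔ Ts ⊔ T5 ⊔ T7 ⊔ Tw ⊔ Ta ⊔ Tb ⊔ Tc ⊔ Td ⊔ Te with hTT
  refine ⟨e, e / 8, he0, he8, TT, fun T H U hT hHge hHT hU => ?_⟩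
  have hTT0 : T0 ≤ T := le_trans (by simp [hTT]) hT
  have hTT1 : T1 ≤ T := le_trans (by simp [hTT]) hT
  have hTTs : Ts ≤ T := le_trans (by simp [hTT]) hT
  have hTT5 : T5 ≤ T := le_trans (by simp [hTT]) hT
  have hTT7 : T7 ≤ T := le_trans (by simp [hTT]) hT
  have hTTw : Tw ≤ T := le_trans (by simp [hTT]) hT
  have hTTa : Ta ≤ T := le_trans (by simp [hTT]) hT
  have hTTb : Tb ≤ T := le_trans (by simp [hTT]) hT
  have hTTc : Tc ≤ T := le_trans (by simp [hTT]) hT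
  have hTTd : Td ≤ T := le_trans (by simp [hTT]) hT
  have hTTe : Te ≤ T := le_trans (by simp [hTT]) hT
  have hTge3 : 3 ≤ T := hT1.trans hTT1
  have hTp : 0 < T := by linarith
  have hT1' : 1 ≤ T := by linarith
  -- the sizes
  have hHc : T ^ c' ≤ H := (Real.rpow_le_rpow_of_exponent_le hT1' hc'c).trans hHge
  have hHp : 0 < H := lt_of_lt_of_le (Real.rpow_pos_of_pos hTp _) hHc
  have hLc : T ^ c' ≤ T := by
    calc T ^ c' ≤ T ^ (1:ℝ) := Real.rpow_le_rpow_of_exponent_le hT1' (by linarith)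
      _ = T := Real.rpow_one T
  have hLH' : T ^ (1 + c') ≤ T * H := by
    rw [Real.rpow_add hTp, Real.rpow_one]
    exact mul_le_mul_of_nonneg_left hHc hTp.le
  obtain ⟨y, N, J, P⟩ := hT0 T H T hTT0 hHc hLc hLH'
  have hT16 := P.hT
  have hLg := P.hlog
  have hy16 := P.hy16
  have hy0 : 0 < y := by linarith
  have hy1 : 1 ≤ y := by linarith
  have hN1 : 1 ≤ N := by have := P.hN2; omega
  have hN0 : (0:ℝ) < N := by exact_mod_cast (by omega : 0 < N)
  have hJ0 : (0:ℝ) < J := by have := P.hJ1; exact_mod_cast (by omega : 0 < J)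
  have hLJ : 0 < T / J := by positivity
  have hy1' : ∀ n : ℕ, 1 ≤ y ^ n := fun n => one_le_pow₀ hy1
  have hyn : ∀ n : ℕ, 1 ≤ n → 16 ≤ y ^ n := fun n hn =>
    hy16.trans (le_self_pow₀ hy1 (by omega))
  have hHh : H ^ (1 / 2 : ℝ) * H ^ (1 / 2 : ℝ) = H := by
    rw [← Real.rpow_add hHp]; norm_num
  have hHh16 : 16 ≤ H ^ (1 / 2 : ℝ) := (hyn 40 (by norm_num)).trans P.hyH
  have hHhH : H ^ (1 / 2 : ℝ) ≤ H := by
    calc H ^ (1 / 2 : ℝ) = H ^ (1 / 2 : ℝ) * 1 := (mul_one _).symm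
      _ ≤ H ^ (1 / 2 : ℝ) * H ^ (1 / 2 : ℝ) :=
        mul_le_mul_of_nonneg_left (by linarith only [hHh16]) (by linarith only [hHh16])
      _ = H := hHh
  have hH3 : 3 ≤ H := by linarith only [hHhH, hHh16]
  have hH1 : 1 ≤ H := by linarith only [hH3]
  have hNH : (N:ℝ) ≤ H := P.hNH.trans hHhH
  have hNT : (N:ℝ) ≤ T := hNH.trans hHT
  have cst : ∀ (a : ℝ) (b : ℕ), 0 ≤ a → a ≤ Ct → b ≤ Bt → a * Real.log T ^ b ≤ y := by
    intro a b hc0 hc hb
    refine le_trans ?_ P.hC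
    have : Real.log T ^ b ≤ Real.log T ^ Bt := pow_le_pow_right₀ hLg hb
    gcongr
  have hPC : 0 ≤ P0 * 688 := by positivity
  have hk0' : (0:ℝ) ≤ 8 * k ^ 2 := by positivity
  have c1 : C1 * Real.log T ^ 4 ≤ y := cst C1 _ hC1.le (by rw [hCt]; linarith) (by omega)
  have c3 : C3 ≤ y := by simpa using cst C3 0 hC3.le (by rw [hCt]; linarith) (by omega)
  have c4 : C4 ≤ y := by simpa using cst C4 0 hC4.le (by rw [hCt]; linarith) (by omega)
  have c5 : C5 * Real.log T ^ B5 ≤ y := cst C5 _ hC5.le (by rw [hCt]; linarith) (by omega)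
  have c6 : P0 * 688 * Real.log T ^ 2 ≤ y := cst _ _ hPC (by rw [hCt]; linarith) (by omega)
  have c7 : Z7 * Real.log T ^ (k ^ 2) ≤ y := cst _ _ hZ7' (by rw [hCt]; linarith) (by omega)
  have c8 : 8 * (k:ℝ) ^ 2 ≤ y := by simpa using cst _ 0 hk0' (by rw [hCt]; linarith) (by omega)
  have hone := (h7 T 1 hTT7 le_rfl (by
    push_cast
    exact Real.one_le_rpow hT1' (by norm_num))).1
  have hZe : P0 * ZB k C7 T = Z7 * Real.log T ^ (k ^ 2) := by
    unfold ZB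
    rw [hZ7, mul_pow]; ring
  have hZ : P0 * ZB k C7 T ≤ y := hZe.le.trans c7
  have hZe4 : P0 * ZB k C7 T ≤ T ^ (e / 4) := hZe.le.trans (hTc T hTTc)
  have hZ0 : 0 ≤ ZB k C7 T := by
    unfold ZB
    exact mul_nonneg (BF_nonneg _ _) (by positivity)
  have radd : ∀ a b : ℝ, T ^ a * T ^ b = T ^ (a + b) := fun a b => (Real.rpow_add hTp a b).symm
  have rle : ∀ a b : ℝ, a ≤ b → T ^ a ≤ T ^ b := fun a b h => Real.rpow_le_rpow_of_exponent_le hT1' h
  have rpos : ∀ a : ℝ, 0 < T ^ a := fun a => Real.rpow_pos_of_pos hTp a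
  -- the bad heights
  set V0 : ℝ := T ^ e * H with hV0def
  have hV0p : 0 < V0 := mul_pos (rpos _) hHp
  set F : Set ℝ := GF H V0 U with hFdef
  have hFm : MeasurableSet F := (GF_closed H V0 U).measurableSet
  set m : ℝ := T ^ (1 - 3 * e / 4) with hmdef
  have hm0 : 0 < m := rpos _
  have hvol : volume (Fᶜ ∩ Icc 0 T) ≤ ENNReal.ofReal m := by
    refine (GF_bad hTp.le hHp.le hU hV0p (hsm T hTTs)).trans (ENNReal.ofReal_le_ofReal ?_)
    have b1 := hTb T hTTb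
    rw [pow_one] at b1
    have e2 : 2 * (k:ℝ) * (H * (Cs * T * Real.log T) / (T ^ e * H)) =
        (2 * k * Cs * Real.log T) * T * (T ^ e)⁻¹ := by
      field_simp
    rw [hV0def, e2]
    calc (2 * k * Cs * Real.log T) * T * (T ^ e)⁻¹ ≤ T ^ (e / 4) * T * (T ^ e)⁻¹ := by gcongr
      _ = T ^ (e / 4) * T ^ (1:ℝ) * T ^ (-e) := by rw [Real.rpow_one, Real.rpow_neg hTp.le]
      _ = m := by rw [radd, radd, hmdef]; congr 1; ring
  refine ⟨hvol.trans (ENNReal.ofReal_le_ofReal (rle _ _ (by linarith))), ?_⟩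
  -- the mean squares
  set W : ℝ := 2 * T ^ e with hW
  have hTe1 : 1 ≤ T ^ e := Real.one_le_rpow hT1' (by positivity)
  have hW1 : 1 ≤ W := by rw [hW]; linarith only [hTe1]
  have hWk : W ^ (2 * k) ≤ y := by
    rw [hW, mul_pow, P.hy]
    have g1 : (T ^ e) ^ (2 * k) ≤ T ^ (θ / 2) := by
      rw [← Real.rpow_natCast, ← Real.rpow_mul hTp.le]
      refine rle _ _ ?_
      push_cast
      linarith
    have g2 := hTw T hTTw
    calc (2:ℝ) ^ (2 * k) * (T ^ e) ^ (2 * k) ≤ T ^ (θ / 2) * T ^ (θ / 2) := by gcongr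
      _ = T ^ θ := by
          rw [radd]
          congr 1
          ring
  have hWk1 : W ^ (2 * k - 1) ≤ y :=
    (pow_le_pow_right₀ hW1 (by omega)).trans hWk
  set V : ℝ := W * H with hV
  have hVn : 0 ≤ V := by positivity
  have hV0V : V0 ≤ V := by
    rw [hV, hW, hV0def]
    have hpe := mul_pos (rpos e) hHp
    linarith only [hpe]
  have hV01 : V0 + 1 ≤ V := by
    rw [hV, hW, hV0def]
    have hpe : 1 ≤ T ^ e * H := one_le_mul_of_one_le_of_one_le hTe1 hH1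
    linarith only [hpe]
  have hPw : ∀ v, ∫ y in (0:ℝ)..H, ‖PN N (v + y)‖ ^ 2 ≤ Cp * Real.log T ^ 3 * H := fun v =>
    hvP T H v N hTge3 hH1 hHT hN1 hNH
  have hVP : ∀ v, 0 ≤ v → v ≤ 2 * T → ∫ y in (0:ℝ)..H, ‖PN N (v + y)‖ ^ 2 ≤ V := fun v _ _ => by
    refine (hPw v).trans ?_
    have := hTe T hTTe
    calc Cp * Real.log T ^ 3 * H ≤ T ^ e * H := by gcongr
      _ = V0 := rfl
      _ ≤ V := hV0V
  -- the target for each piece
  have hH2k : H ^ (2 * k) = H * H ^ (2 * k - 1) := by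
    rw [← pow_succ']
    congr 1
    omega
  have hHk : 0 < H ^ (2 * k) := by positivity
  have hHk1 : 0 < H ^ (2 * k - 1) := by positivity
  set b : ℝ := H ^ (2 * k) / y ^ 3 with hb
  have hb0 : 0 < b := by positivity
  have hVk : V ^ (2 * k) ≤ y * H ^ (2 * k) := by
    rw [hV, mul_pow]
    gcongr
  have hV0k : V0 ^ (2 * k) ≤ y * H ^ (2 * k) := (pow_le_pow_left₀ hV0p.le hV0V _).trans hVk
  have hVk1 : V ^ (2 * k - 1) ≤ y * H ^ (2 * k - 1) := by
    rw [hV, mul_pow]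
    gcongr
  have hNinv : 1 / (N:ℝ) ≤ 2 / y ^ 320 := by
    rw [div_le_div_iff₀ hN0 (by positivity)]
    have := P.hN
    linarith
  have hTLH : T ≤ T * H / y ^ 40 := by
    rw [le_div_iff₀ (by positivity)]
    have := P.hyLH
    linarith
  have hHLN : H * T / N + T ≤ 3 * (T * H) / y ^ 40 := by
    have g1 : 2 / y ^ 320 ≤ 2 / y ^ 40 := by
      have : y ^ 40 ≤ y ^ 320 := pow_le_pow_right₀ hy1 (by norm_num)
      gcongr
    have g2 : H * T / N ≤ 2 * (T * H) / y ^ 40 := by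
      calc H * T / N = (H * T) * (1 / N) := by ring
        _ ≤ (H * T) * (2 / y ^ 40) := by
            have := hNinv.trans g1
            gcongr
        _ = _ := by ring
    have g3 : 3 * (T * H) / y ^ 40 = 2 * (T * H) / y ^ 40 + T * H / y ^ 40 := by ring
    rw [g3]
    exact add_le_add g2 hTLH
  have hcU : Continuous fun γ : Fin k ⊕ Fin k → ℝ => U + γ := by fun_prop
  -- U3
  have u3 : mP (Fin k ⊕ Fin k) H {γ | 1 / y ^ 4 < ‖SN N (U + γ) - SP ψ N (U + γ)‖} ≤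
      ENNReal.ofReal b := by
    refine (cheb ((((SN_cont N).comp hcU).sub ((SP_cont ψ N).comp hcU)).norm.aemeasurable)
      (by positivity) (h3 H N U P.hN2 P.hN1)).trans (ENNReal.ofReal_le_ofReal ?_)
    have e := P.hN8
    calc C3 * H ^ (2 * k) * (N:ℝ) ^ (-(1 / 8) : ℝ) / (1 / y ^ 4) ^ 2
        ≤ y * H ^ (2 * k) * (2 / y ^ 40) / (1 / y ^ 4) ^ 2 := by gcongr
      _ = H ^ (2 * k) / y ^ 3 * (2 / y ^ 28) := by field_simp
      _ ≤ H ^ (2 * k) / y ^ 3 * 1 := by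
          gcongr
          rw [div_le_one (by positivity)]
          linarith [hyn 28 (by norm_num)]
      _ = b := by rw [mul_one]
  -- U4
  have u4 : mP (Fin k ⊕ Fin k) H {γ | 1 / y ^ 4 < ‖SP ψ N (U + γ) - GM N (U + γ) 0‖} ≤
      ENNReal.ofReal b := by
    refine (cheb ((((SP_cont ψ N).comp hcU).sub ((GM0_cont N).comp hcU)).norm.aemeasurable)
      (by positivity) (h4 H N U P.hM hH1 P.hN3)).trans (ENNReal.ofReal_le_ofReal ?_)
    have e := P.hN8
    calc C4 * H ^ (2 * k) * (N:ℝ) ^ (-(1 / 8) : ℝ) / (1 / y ^ 4) ^ 2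
        ≤ y * H ^ (2 * k) * (2 / y ^ 40) / (1 / y ^ 4) ^ 2 := by gcongr
      _ = H ^ (2 * k) / y ^ 3 * (2 / y ^ 28) := by field_simp
      _ ≤ H ^ (2 * k) / y ^ 3 * 1 := by
          gcongr
          rw [div_le_one (by positivity)]
          linarith [hyn 28 (by norm_num)]
      _ = b := by rw [mul_one]
  -- U5
  have u5 : mP (Fin k ⊕ Fin k) H (SepU k H U ∩ {γ | 1 / y ^ 4 < ‖GM N (U + γ) 0 - zr (U + γ)‖}) ≤
      ENNReal.ofReal b := by
    have hm : AEMeasurable (fun γ : Fin k ⊕ Fin k → ℝ => ‖GM N (U + γ) 0 - zr (U + γ)‖)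
        ((mP (Fin k ⊕ Fin k) H).restrict (SepU k H U)) :=
      ((((GM0_cont N).comp hcU).continuousOn.sub (zrU_cont hH1)).norm).aemeasurable
        (SepU_meas k H U)
    have hcb := cheb hm (lam := 1 / y ^ 4) (by positivity)
      (h5 T H N U hTT5 hH3 hU hN1 P.hNH)
    have e0 : mP (Fin k ⊕ Fin k) H (SepU k H U ∩ {γ | 1 / y ^ 4 < ‖GM N (U + γ) 0 - zr (U + γ)‖}) ≤
        ((mP (Fin k ⊕ Fin k) H).restrict (SepU k H U))
          {γ | 1 / y ^ 4 < ‖GM N (U + γ) 0 - zr (U + γ)‖} := by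
      rw [inter_comm]
      exact Measure.le_restrict_apply _ _
    refine e0.trans (hcb.trans (ENNReal.ofReal_le_ofReal ?_))
    calc C5 * Real.log T ^ B5 * H ^ (2 * k) / N / (1 / y ^ 4) ^ 2
        = (C5 * Real.log T ^ B5) * H ^ (2 * k) * (1 / N) / (1 / y ^ 4) ^ 2 := by ring
      _ ≤ y * H ^ (2 * k) * (2 / y ^ 320) / (1 / y ^ 4) ^ 2 := by gcongr
      _ = H ^ (2 * k) / y ^ 3 * (2 / y ^ 308) := by field_simp
      _ ≤ H ^ (2 * k) / y ^ 3 * 1 := by
          gcongr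
          rw [div_le_one (by positivity)]
          linarith [hyn 308 (by norm_num)]
      _ = b := by rw [mul_one]
  have hgrid : ∀ i ∈ Finset.range (J + 1), 0 ≤ (i:ℝ) * (T / J) ∧ (i:ℝ) * (T / J) ≤ T := by
    intro i hi
    have hi' : (i:ℝ) ≤ J := by exact_mod_cast Nat.lt_succ_iff.1 (Finset.mem_range.1 hi)
    refine ⟨by positivity, ?_⟩
    calc (i:ℝ) * (T / J) ≤ J * (T / J) := by gcongr
      _ = T := by field_simp
  have hJ3 : ((J + 1 : ℕ) : ℝ) ≤ 3 * y ^ 16 := by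
    push_cast
    have := P.hJu
    linarith [hyn 16 (by norm_num)]
  -- U1
  have u1 : ∑ i ∈ Finset.range (J + 1), mP (Fin k ⊕ Fin k) H
      {γ | T / y ^ 4 < ‖AE F N (i * (T / J)) (U + γ)‖} ≤ ENNReal.ofReal b := by
    refine sum_ofReal_le' (b := C1 * Real.log T ^ 4 * (H * T / N + T) * T * V ^ (2 * k - 1) /
      (T / y ^ 4) ^ 2) (fun i hi => ?_) ?_
    · obtain ⟨g0, g1⟩ := hgrid i hi
      exact cheb (((AE_cont hFm N g0).comp hcU).norm.aemeasurable) (by positivity)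
        (h1 T H _ V0 V N U hTT1 hH1 hU g0 g1 hN1 hNT hVn hV01 hVP)
    · calc ((J + 1 : ℕ) : ℝ) * (C1 * Real.log T ^ 4 * (H * T / N + T) * T * V ^ (2 * k - 1) /
            (T / y ^ 4) ^ 2)
          = ((J + 1 : ℕ) : ℝ) * ((C1 * Real.log T ^ 4) * (H * T / N + T) * T * V ^ (2 * k - 1) /
              (T / y ^ 4) ^ 2) := by ring
        _ ≤ (3 * y ^ 16) * (y * (3 * (T * H) / y ^ 40) * T * (y * H ^ (2 * k - 1)) /
              (T / y ^ 4) ^ 2) := by gcongr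
        _ = H ^ (2 * k) / y ^ 3 * (9 / y ^ 11) := by
            rw [hH2k]; field_simp; norm_num
        _ ≤ H ^ (2 * k) / y ^ 3 * 1 := by
            gcongr
            rw [div_le_one (by positivity)]
            linarith [hyn 11 (by norm_num)]
        _ = b := by rw [mul_one]
  -- U6
  have u6 : ∑ i ∈ Finset.range (J + 1), mP (Fin k ⊕ Fin k) H
      (⋃ π ∈ (Pk k)ᶜ, {γ | T / y ^ 8 < ‖IG (i * (T / J)) (U + γ) π‖}) ≤ ENNReal.ofReal b := by
    refine sum_ofReal_le' (b := P0 * (688 * (T * T) * Real.log T ^ 2 * H ^ (2 * k - 1) /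
      (T / y ^ 8) ^ 2)) (fun i hi => ?_) ?_
    · obtain ⟨g0, g1⟩ := hgrid i hi
      refine (measure_biUnion_finset_le _ _).trans ?_
      calc ∑ π ∈ (Pk k)ᶜ, mP (Fin k ⊕ Fin k) H {γ | T / y ^ 8 < ‖IG (i * (T / J)) (U + γ) π‖}
          ≤ ∑ _π ∈ (Pk k)ᶜ, ENNReal.ofReal (688 * (T * T) * Real.log T ^ 2 * H ^ (2 * k - 1) /
              (T / y ^ 8) ^ 2) := by
            refine Finset.sum_le_sum fun π hπ => ?_
            have hπ' : ∃ j, (π (Sum.inr j)).isLeft = true := by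
              rw [Finset.mem_compl, Pk, Finset.mem_filter, not_and] at hπ
              have := hπ (Finset.mem_univ _)
              push Not at this
              obtain ⟨j, hj⟩ := this
              exact ⟨j, by simpa using hj⟩
            have hsw := swL k U π hT16 hHp.le hU g0 g1 hπ'
            refine cheb (((IG_cont _ π).comp hcU).norm.aemeasurable) (by positivity)
              (hsw.trans (ENNReal.ofReal_le_ofReal ?_))
            gcongr
        _ = ENNReal.ofReal (((Pk k)ᶜ.card : ℝ) * (688 * (T * T) * Real.log T ^ 2 *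
              H ^ (2 * k - 1) / (T / y ^ 8) ^ 2)) := by
            rw [Finset.sum_const, nsmul_eq_mul, ENNReal.ofReal_mul (by positivity),
              ENNReal.ofReal_natCast]
        _ ≤ _ := by
            refine ENNReal.ofReal_le_ofReal ?_
            gcongr
            rw [hP0]
            exact_mod_cast Finset.card_le_univ _
    · calc ((J + 1 : ℕ) : ℝ) * (P0 * (688 * (T * T) * Real.log T ^ 2 * H ^ (2 * k - 1) /
            (T / y ^ 8) ^ 2))
          = ((J + 1 : ℕ) : ℝ) * ((P0 * 688 * Real.log T ^ 2) * (T * T) * H ^ (2 * k - 1) /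
              (T / y ^ 8) ^ 2) := by
            ring
        _ ≤ (3 * y ^ 16) * (y * (T * (T * H / y ^ 40)) * H ^ (2 * k - 1) / (T / y ^ 8) ^ 2) := by
            gcongr
        _ = H ^ (2 * k) / y ^ 3 * (3 / y ^ 4) := by
            rw [hH2k]; field_simp
        _ ≤ H ^ (2 * k) / y ^ 3 * 1 := by
            gcongr
            rw [div_le_one (by positivity)]
            linarith [hyn 4 (by norm_num)]
        _ = b := by rw [mul_one]
  -- U7
  have u7 : ∑ i ∈ Finset.range J, mP (Fin k ⊕ Fin k) H {γ | T / y ^ 4 <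
      ZI F (i * (T / J)) ((i + 1 : ℕ) * (T / J)) (U + γ)} ≤
      ENNReal.ofReal b := by
    refine sum_ofReal_le' (b := (T / J) ^ 2 * V0 ^ (2 * k) / (T / y ^ 4) ^ 2)
      (fun i hi => ?_) ?_
    · have hle : (i:ℝ) * (T / J) ≤ ((i + 1 : ℕ) : ℝ) * (T / J) := by
        gcongr
        push_cast; linarith
      have hh := z2E k (A := (i:ℝ) * (T / J)) (B := ((i + 1 : ℕ) : ℝ) * (T / J)) U hHp.le hle hV0p.le
      have e : ((i + 1 : ℕ) : ℝ) * (T / J) - i * (T / J) = T / J := by push_cast; ring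
      rw [e] at hh
      exact cheb (((ZI_cont hFm hle).comp hcU).aemeasurable) (by positivity) hh
    · calc (J:ℝ) * ((T / J) ^ 2 * V0 ^ (2 * k) / (T / y ^ 4) ^ 2)
          = V0 ^ (2 * k) * y ^ 8 * (1 / J) := by
            field_simp
        _ ≤ (y * H ^ (2 * k)) * y ^ 8 * (1 / y ^ 16) := by
            have := P.hJl
            gcongr
        _ = H ^ (2 * k) / y ^ 3 * (1 / y ^ 4) := by field_simp
        _ ≤ H ^ (2 * k) / y ^ 3 * 1 := by
            gcongr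
            rw [div_le_one (by positivity)]
            exact hy1' 4
        _ = b := by rw [mul_one]
  -- U8
  have u8 : mP (Fin k ⊕ Fin k) H (SepU k H U)ᶜ ≤ ENNReal.ofReal b := by
    refine (hNS k H U hH1).trans (ENNReal.ofReal_le_ofReal ?_)
    have e : H ^ (2 * k - 1 / 2 : ℝ) = H ^ (2 * k) / H ^ (1 / 2 : ℝ) := by
      rw [Real.rpow_sub hHp]
      congr 1
      rw [← Real.rpow_natCast]; push_cast; rfl
    rw [e]
    have hyT2 := P.hyH
    calc 8 * (k:ℝ) ^ 2 * (H ^ (2 * k) / H ^ (1 / 2 : ℝ)) ≤ y * (H ^ (2 * k) / y ^ 40) := by gcongr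
      _ = H ^ (2 * k) / y ^ 3 * (1 / y ^ 36) := by field_simp
      _ ≤ H ^ (2 * k) / y ^ 3 * 1 := by
          gcongr
          rw [div_le_one (by positivity)]
          exact hy1' 36
      _ = b := by rw [mul_one]
  -- U9
  set l2 : ℝ := T ^ (1 - e / 2) with hl2
  have hl20 : 0 < l2 := rpos _
  have u9 : mP (Fin k ⊕ Fin k) H {γ | l2 < PE F N T (U + γ)} ≤
      ENNReal.ofReal (H ^ (2 * k) * T ^ (-(e / 4))) := by
    have hVPn : 0 ≤ Cp * Real.log T ^ 3 * H := by positivity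
    refine (cheb (((PE_cont hFm N hTp.le).comp hcU).aemeasurable) hl20
      (pE k hFm U hHp.le hTp.le hVPn hm0.le hvol hPw)).trans (ENNReal.ofReal_le_ofReal ?_)
    have hd := hTd T hTTd
    have e1 : (Cp * Real.log T ^ 3 * H) ^ (2 * k) = (Cp ^ (2 * k) * Real.log T ^ (3 * (2 * k))) * H ^ (2 * k) := by
      rw [mul_pow, mul_pow, ← pow_mul]
    rw [e1]
    have e2 : m ^ 2 / l2 ^ 2 = T ^ (-(e / 2)) := by
      rw [hmdef, hl2, ← Real.rpow_natCast, ← Real.rpow_natCast, ← Real.rpow_mul hTp.le,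
        ← Real.rpow_mul hTp.le, ← Real.rpow_sub hTp]
      congr 1
      push_cast
      ring
    calc m ^ 2 * ((Cp ^ (2 * k) * Real.log T ^ (3 * (2 * k))) * H ^ (2 * k)) / l2 ^ 2
        = (m ^ 2 / l2 ^ 2) * ((Cp ^ (2 * k) * Real.log T ^ (3 * (2 * k))) * H ^ (2 * k)) := by ring
      _ ≤ T ^ (-(e / 2)) * (T ^ (e / 4) * H ^ (2 * k)) := by rw [e2]; gcongr
      _ = H ^ (2 * k) * (T ^ (-(e / 2)) * T ^ (e / 4)) := by ring
      _ = _ := by rw [radd]; congr 2; ring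
  -- conclusion
  have hy4 : T / y ^ 4 ≤ T ^ (1 - e / 2) := by
    have e1 : T / y ^ 4 = T ^ (1 - 4 * θ) := by
      rw [P.hy, ← Real.rpow_natCast, ← Real.rpow_mul hTp.le, Real.rpow_sub hTp, Real.rpow_one]
      congr 2
      push_cast
      ring
    rw [e1]
    exact rle _ _ (by linarith)
  have hy3 : 1 / y ^ 3 ≤ T ^ (-(e / 4)) := by
    have e1 : 1 / y ^ 3 = T ^ (-(3 * θ)) := by
      rw [P.hy, ← Real.rpow_natCast, ← Real.rpow_mul hTp.le, Real.rpow_neg hTp.le, one_div]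
      congr 2
      push_cast
      ring
    rw [e1]
    exact rle _ _ (by linarith)
  have h10 := hTa T hTTa
  have hlam : 8 * (T / y ^ 4) + l2 + m * (P0 * ZB k C7 T) ≤ T ^ (1 - e / 8) := by
    have g1 : m * (P0 * ZB k C7 T) ≤ T ^ (1 - e / 2) := by
      calc m * (P0 * ZB k C7 T) ≤ T ^ (1 - 3 * e / 4) * T ^ (e / 4) := by
            rw [hmdef]; gcongr
        _ = _ := by rw [radd]; congr 1; ring
    calc 8 * (T / y ^ 4) + l2 + m * (P0 * ZB k C7 T)
        ≤ 8 * T ^ (1 - e / 2) + T ^ (1 - e / 2) + T ^ (1 - e / 2) := by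
          gcongr
      _ = 10 * T ^ (1 - e / 2) := by ring
      _ ≤ T ^ (e / 8) * T ^ (1 - e / 2) := by gcongr
      _ = T ^ (1 - 3 * e / 8) := by rw [radd]; congr 1; ring
      _ ≤ _ := rle _ _ (by linarith)
  refine (measure_mono (BadE_sub hINV hD ψ hFm hTge3 hH1 hU hy16 P.hJ1 P.hJl hN1 P.hN4 hC7 hone
    hZ hZ0 hm0.le hvol hlam)).trans ?_
  have step : ∀ {A B : Set (Fin k ⊕ Fin k → ℝ)} {x z : ℝ}, 0 ≤ x → 0 ≤ z →
      mP (Fin k ⊕ Fin k) H A ≤ ENNReal.ofReal x → mP (Fin k ⊕ Fin k) H B ≤ ENNReal.ofReal z →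
      mP (Fin k ⊕ Fin k) H (A ∪ B) ≤ ENNReal.ofReal (x + z) := by
    intro A B x z hx hz hA hB
    rw [ENNReal.ofReal_add hx hz]
    exact (measure_union_le _ _).trans (add_le_add hA hB)
  have tot := step (by positivity) (by positivity) (step (by positivity) (by positivity)
    (step (by positivity) (by positivity)
    (step (by positivity) (by positivity) (step (by positivity) (by positivity)
    (step (by positivity) (by positivity) (step (by positivity) (by positivity) u8 u3) u4) u5)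
    ((measure_biUnion_finset_le _ _).trans u1)) ((measure_biUnion_finset_le _ _).trans u6))
    ((measure_biUnion_finset_le _ _).trans u7)) u9
  refine tot.trans (ENNReal.ofReal_le_ofReal ?_)
  have e7 : b + b + b + b + b + b + b = 7 * b := by ring
  rw [e7]
  have hbe : b ≤ H ^ (2 * k) * T ^ (-(e / 4)) := by
    calc b = H ^ (2 * k) * (1 / y ^ 3) := by rw [hb]; ring
      _ ≤ _ := by gcongr
  calc 7 * b + H ^ (2 * k) * T ^ (-(e / 4))
      ≤ 7 * (H ^ (2 * k) * T ^ (-(e / 4))) + H ^ (2 * k) * T ^ (-(e / 4)) := by gcongr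
    _ = 8 * (H ^ (2 * k) * T ^ (-(e / 4))) := by ring
    _ ≤ T ^ (e / 8) * (H ^ (2 * k) * T ^ (-(e / 4))) := by
        gcongr
        linarith
    _ = H ^ (2 * k) * (T ^ (e / 8) * T ^ (-(e / 4))) := by ring
    _ = _ := by rw [radd]; congr 2; ring

end

end Pool.Agent.H3.SE

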