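import Pool.Graph.R_pool_sql_team_seeded_707910d6.T2H54.SB.AsmC
import Pool.Graph.R_pool_sql_team_seeded_707910d6.T2H54.SB.SSU
import Pool.Graph.R_pool_sql_team_seeded_707910d6.T2H54.SB.A4U
import Pool.Graph.R_pool_sql_team_seeded_707910d6.T2H54.SB.NSU
import Pool.Graph.R_pool_sql_team_seeded_707910d6.T2H54.SB.ZMU

set_option autoImplicit false

/-! Replacement of the factors, with a weight: the bounds on windows are needed on the support of the
weight only (adapted from `T2H54.SB.Rep`). -/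

namespace Pool.Agent.H3.SE

open MeasureTheory Set
open scoped ENNReal
open Pool.Agent.TH612.GS (mP)
open Pool.Agent.TH521.GS

noncomputable section

lemma tonW {X : Type} [MeasurableSpace X] [TopologicalSpace X] [SecondCountableTopology X]
    [BorelSpace X] (ν : Measure X) [SFinite ν] {w : ℝ → ℝ} (hw : Continuous w)
    (hw0 : ∀ t, 0 ≤ w t) {G : ℝ → X → ℝ} (hG : Continuous (Function.uncurry G))
    (hG0 : ∀ t x, 0 ≤ G t x) {A B C : ℝ} (hAB : A ≤ B) (hC : 0 ≤ C)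
    (h : ∀ t ∈ Icc A B, w t ≠ 0 → ∫⁻ x, ENNReal.ofReal (G t x) ∂ν ≤ ENNReal.ofReal C) :
    ∫⁻ x, ENNReal.ofReal (∫ t in A..B, w t * G t x) ∂ν ≤
      ENNReal.ofReal (C * ∫ t in A..B, w t) := by
  have hGx : ∀ x, Continuous fun t => G t x := fun x =>
    hG.comp (by fun_prop : Continuous fun t : ℝ => (t, x))
  have hGt : ∀ t, Continuous fun x => G t x := fun t =>
    hG.comp (by fun_prop : Continuous fun x : X => (t, x))
  have e1 : ∀ x, ENNReal.ofReal (∫ t in A..B, w t * G t x) =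
      ∫⁻ t, ENNReal.ofReal (w t * G t x) ∂(volume.restrict (Icc A B)) := fun x =>
    (lint1 hAB (hw.mul (hGx x)) fun t => mul_nonneg (hw0 t) (hG0 t x)).symm
  simp_rw [e1]
  have hm : Measurable (Function.uncurry fun (x : X) (t : ℝ) => ENNReal.ofReal (w t * G t x)) := by
    apply ENNReal.measurable_ofReal.comp
    have : Continuous fun p : X × ℝ => w p.2 * G p.2 p.1 :=
      (hw.comp continuous_snd).mul (hG.comp (by fun_prop : Continuous fun p : X × ℝ => (p.2, p.1)))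
    exact this.measurable
  rw [lintegral_lintegral_swap hm.aemeasurable]
  have e2 : ∀ t, ∫⁻ x, ENNReal.ofReal (w t * G t x) ∂ν =
      ENNReal.ofReal (w t) * ∫⁻ x, ENNReal.ofReal (G t x) ∂ν := by
    intro t
    simp_rw [ENNReal.ofReal_mul (hw0 t)]
    rw [lintegral_const_mul _ (mor (hGt t))]
  simp_rw [e2]
  calc ∫⁻ t in Icc A B, ENNReal.ofReal (w t) * ∫⁻ x, ENNReal.ofReal (G t x) ∂ν
      ≤ ∫⁻ t in Icc A B, ENNReal.ofReal (w t) * ENNReal.ofReal C := by
        refine setLIntegral_mono' measurableSet_Icc fun t ht => ?_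
        rcases eq_or_ne (w t) 0 with h0 | h0
        · simp [h0]
        · exact mul_le_mul' le_rfl (h t ht h0)
    _ = ENNReal.ofReal (C * ∫ t in A..B, w t) := by
        rw [lintegral_mul_const _ (mor hw),
          lint1 hAB hw hw0, mul_comm, ← ENNReal.ofReal_mul hC]

theorem rep_finW {T S K V : ℝ} (W : Set ℝ) (hS : 0 ≤ S) (hT : 0 ≤ T) (hK : 0 ≤ K) (hV : 0 ≤ V) :
    ∀ (n : ℕ) (f g : Fin n → ℝ → ℂ), (∀ i, Continuous (f i)) → (∀ i, Continuous (g i)) →
    (∀ i, ∀ R : ℝ → ℂ, Continuous R →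
      ∫ y in (0:ℝ)..T, ‖∫ t in (0:ℝ)..S, (f i (t + y) - g i (t + y)) * R t‖ ^ 2 ≤
        K * ∫ t in (0:ℝ)..S, ‖R t‖ ^ 2) →
    (∀ i, ∀ t ∈ Icc 0 S, t ∈ W → ∫ y in (0:ℝ)..T, ‖f i (t + y)‖ ^ 2 ≤ V) →
    (∀ i, ∀ t ∈ Icc 0 S, t ∈ W → ∫ y in (0:ℝ)..T, ‖g i (t + y)‖ ^ 2 ≤ V) →
    ∀ R : ℝ → ℂ, Continuous R → (∀ t, R t ≠ 0 → t ∈ W) →
    ∫⁻ γ, ENNReal.ofReal (‖∫ t in (0:ℝ)..S, R t *
      (∏ i, f i (t + γ i) - ∏ i, g i (t + γ i))‖ ^ 2) ∂(mP (Fin n) T) ≤
      ENNReal.ofReal (bb K V n * ∫ t in (0:ℝ)..S, ‖R t‖ ^ 2) := by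
  intro n
  induction n with
  | zero =>
    intro f g _ _ _ _ _ R _ _
    simp
  | succ n ih =>
    intro f g hf hg hop hVf hVg R hR hRW
    have hf0 := hf 0
    have hg0 := hg 0
    have hcc : Continuous fun p : ℝ × (Fin n → ℝ) => (Fin.cons p.1 p.2 : Fin (n + 1) → ℝ) :=
      Continuous.finCons (A := fun _ => ℝ) continuous_fst continuous_snd
    -- the two parts
    obtain ⟨D1, hD1⟩ : ∃ D1 : ℝ × (Fin n → ℝ) → ℂ, D1 = fun p => ∫ t in (0:ℝ)..S,
      (f 0 (t + p.1) - g 0 (t + p.1)) * (R t * ∏ i : Fin n, f i.succ (t + p.2 i)) := ⟨_, rfl⟩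
    obtain ⟨D2, hD2⟩ : ∃ D2 : ℝ × (Fin n → ℝ) → ℂ, D2 = fun p => ∫ t in (0:ℝ)..S,
      (R t * g 0 (t + p.1)) * (∏ i : Fin n, f i.succ (t + p.2 i) -
        ∏ i : Fin n, g i.succ (t + p.2 i)) := ⟨_, rfl⟩
    have hc1 : Continuous D1 := by
      rw [hD1]
      apply intervalIntegral.continuous_parametric_intervalIntegral_of_continuous'
      unfold Function.uncurry
      fun_prop
    have hc2 : Continuous D2 := by
      rw [hD2]
      apply intervalIntegral.continuous_parametric_intervalIntegral_of_continuous'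
      unfold Function.uncurry
      fun_prop
    have hcD : Continuous fun γ : Fin (n + 1) → ℝ => ‖∫ t in (0:ℝ)..S, R t *
        (∏ i, f i (t + γ i) - ∏ i, g i (t + γ i))‖ ^ 2 := by
      apply Continuous.pow
      apply Continuous.norm
      apply intervalIntegral.continuous_parametric_intervalIntegral_of_continuous'
      unfold Function.uncurry
      fun_prop
    have hsplit : ∀ p : ℝ × (Fin n → ℝ), (∫ t in (0:ℝ)..S, R t *
        (∏ i, f i (t + (Fin.cons p.1 p.2 : Fin (n + 1) → ℝ) i) -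
          ∏ i, g i (t + (Fin.cons p.1 p.2 : Fin (n + 1) → ℝ) i))) = D1 p + D2 p := by
      intro p
      rw [hD1, hD2]
      dsimp only
      rw [← intervalIntegral.integral_add]
      · apply intervalIntegral.integral_congr
        intro t _
        dsimp only
        rw [Fin.prod_univ_succ, Fin.prod_univ_succ]
        simp only [Fin.cons_zero, Fin.cons_succ]
        ring
      · apply Continuous.intervalIntegrable
        fun_prop
      · apply Continuous.intervalIntegrable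
        fun_prop
    have hle : ∀ p : ℝ × (Fin n → ℝ), ENNReal.ofReal (‖∫ t in (0:ℝ)..S, R t *
        (∏ i, f i (t + (Fin.cons p.1 p.2 : Fin (n + 1) → ℝ) i) -
          ∏ i, g i (t + (Fin.cons p.1 p.2 : Fin (n + 1) → ℝ) i))‖ ^ 2) ≤
        ENNReal.ofReal 2 * ENNReal.ofReal (‖D1 p‖ ^ 2) +
          ENNReal.ofReal 2 * ENNReal.ofReal (‖D2 p‖ ^ 2) := by
      intro p
      rw [hsplit, ← ENNReal.ofReal_mul (by norm_num), ← ENNReal.ofReal_mul (by norm_num),
        ← ENNReal.ofReal_add (by positivity) (by positivity)]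
      apply ENNReal.ofReal_le_ofReal
      have h1 := norm_add_le (D1 p) (D2 p)
      have h2 : ‖D1 p + D2 p‖ ^ 2 ≤ (‖D1 p‖ + ‖D2 p‖) ^ 2 :=
        pow_le_pow_left₀ (norm_nonneg _) h1 2
      nlinarith [sq_nonneg (‖D1 p‖ - ‖D2 p‖)]
    have hm1 : Measurable fun p : ℝ × (Fin n → ℝ) => ENNReal.ofReal (‖D1 p‖ ^ 2) :=
      mor (hc1.norm.pow 2)
    have hm2 : Measurable fun p : ℝ × (Fin n → ℝ) => ENNReal.ofReal (‖D2 p‖ ^ 2) :=
      mor (hc2.norm.pow 2)
    have hR2 : ∀ t, ‖R t‖ ^ 2 ≠ 0 → t ∈ W := fun t ht => hRW t fun h0 => ht (by rw [h0]; simp)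
    -- part 1
    have hp1 : ∫⁻ p, ENNReal.ofReal (‖D1 p‖ ^ 2)
        ∂((volume.restrict (Icc 0 T)).prod (mP (Fin n) T)) ≤
        ENNReal.ofReal (K * V ^ n * ∫ t in (0:ℝ)..S, ‖R t‖ ^ 2) := by
      rw [lintegral_prod_symm _ hm1.aemeasurable]
      have e1 : ∀ γ : Fin n → ℝ, ∫⁻ y, ENNReal.ofReal (‖D1 (y, γ)‖ ^ 2)
          ∂(volume.restrict (Icc 0 T)) ≤ ENNReal.ofReal K *
            ENNReal.ofReal (∫ t in (0:ℝ)..S, ‖R t‖ ^ 2 * ∏ i : Fin n, ‖f i.succ (t + γ i)‖ ^ 2) := by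
        intro γ
        have hcy : Continuous fun y : ℝ => ‖D1 (y, γ)‖ ^ 2 :=
          (hc1.comp (by fun_prop : Continuous fun y : ℝ => (y, γ))).norm.pow 2
        rw [lint1 hT hcy fun y => sq_nonneg _, ← ENNReal.ofReal_mul hK]
        apply ENNReal.ofReal_le_ofReal
        have h1 := hop 0 (fun t => R t * ∏ i : Fin n, f i.succ (t + γ i)) (by fun_prop)
        rw [hD1]
        refine h1.trans (le_of_eq ?_)
        congr 1
        apply intervalIntegral.integral_congr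
        intro t _
        dsimp only
        rw [norm_mul, norm_prod, mul_pow, Finset.prod_pow]
      refine (lintegral_mono e1).trans ?_
      have hG : Continuous (Function.uncurry fun (t : ℝ) (γ : Fin n → ℝ) =>
          ∏ i : Fin n, ‖f i.succ (t + γ i)‖ ^ 2) := by
        unfold Function.uncurry
        fun_prop
      rw [lintegral_const_mul']
      · rw [mul_assoc, ENNReal.ofReal_mul hK]
        refine mul_le_mul' le_rfl ?_
        exact tonW (mP (Fin n) T) (hR.norm.pow 2) (fun t => sq_nonneg _) hG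
          (fun t γ => Finset.prod_nonneg fun i _ => sq_nonneg _) hS (by positivity)
          fun t ht h0 => pt hT hV t n (fun i => f i.succ) (fun i => hf i.succ)
            fun i => hVf i.succ t ht (hR2 t h0)
      · exact ENNReal.ofReal_ne_top
    -- part 2
    have hp2 : ∫⁻ p, ENNReal.ofReal (‖D2 p‖ ^ 2)
        ∂((volume.restrict (Icc 0 T)).prod (mP (Fin n) T)) ≤
        ENNReal.ofReal (bb K V n * (V * ∫ t in (0:ℝ)..S, ‖R t‖ ^ 2)) := by
      rw [lintegral_prod _ hm2.aemeasurable]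
      have hb := bb_nonneg hK hV n
      have e1 : ∀ y : ℝ, ∫⁻ γ, ENNReal.ofReal (‖D2 (y, γ)‖ ^ 2) ∂(mP (Fin n) T) ≤
          ENNReal.ofReal (bb K V n) *
            ENNReal.ofReal (∫ t in (0:ℝ)..S, ‖R t‖ ^ 2 * ‖g 0 (t + y)‖ ^ 2) := by
        intro y
        have h1 := ih (fun i => f i.succ) (fun i => g i.succ) (fun i => hf i.succ)
          (fun i => hg i.succ) (fun i => hop i.succ) (fun i => hVf i.succ) (fun i => hVg i.succ)
          (fun t => R t * g 0 (t + y)) (by fun_prop) (fun t ht => hRW t (left_ne_zero_of_mul ht))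
        rw [hD2]
        refine h1.trans (le_of_eq ?_)
        rw [ENNReal.ofReal_mul hb]
        congr 3
        funext t
        rw [norm_mul, mul_pow]
      refine (lintegral_mono e1).trans ?_
      rw [lintegral_const_mul']
      · rw [ENNReal.ofReal_mul hb]
        refine mul_le_mul' le_rfl ?_
        have hG : Continuous (Function.uncurry fun (t : ℝ) (y : ℝ) => ‖g 0 (t + y)‖ ^ 2) := by
          unfold Function.uncurry
          fun_prop
        refine tonW (volume.restrict (Icc 0 T)) (hR.norm.pow 2) (fun t => sq_nonneg _) hG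
          (fun t y => sq_nonneg _) hS hV fun t ht h0 => ?_
        rw [lint1 hT (by fun_prop) fun y => sq_nonneg _]
        exact ENNReal.ofReal_le_ofReal (hVg 0 t ht (hR2 t h0))
      · exact ENNReal.ofReal_ne_top
    have hI : 0 ≤ ∫ t in (0:ℝ)..S, ‖R t‖ ^ 2 :=
      intervalIntegral.integral_nonneg hS fun t _ => sq_nonneg _
    have hb := bb_nonneg hK hV n
    rw [lint_prod T _ (mor hcD)]
    refine (lintegral_mono hle).trans ?_
    rw [lintegral_add_left (hm1.const_mul _), lintegral_const_mul _ hm1,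
      lintegral_const_mul _ hm2]
    refine (add_le_add (mul_le_mul' le_rfl hp1) (mul_le_mul' le_rfl hp2)).trans ?_
    rw [← ENNReal.ofReal_mul (by norm_num), ← ENNReal.ofReal_mul (by norm_num),
      ← ENNReal.ofReal_add (by positivity) (by positivity), bb_succ]
    apply ENNReal.ofReal_le_ofReal
    apply le_of_eq
    ring

/-- replacement of all the factors, with a weight `w`, `0 ≤ w ≤ 1` -/
theorem repW (ι : Type) [Fintype ι] (f g : ι → ℝ → ℂ) (w : ℝ → ℝ) (T S K V : ℝ) (hS : 0 ≤ S) (hT : 0 ≤ T)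
    (hK : 0 ≤ K) (hV : 0 ≤ V) (hf : ∀ i, Continuous (f i)) (hg : ∀ i, Continuous (g i))
    (hw : Continuous w) (hw1 : ∀ t, |w t| ≤ 1)
    (hop : ∀ i, ∀ R : ℝ → ℂ, Continuous R →
      ∫ y in (0:ℝ)..T, ‖∫ t in (0:ℝ)..S, (f i (t + y) - g i (t + y)) * R t‖ ^ 2 ≤
        K * ∫ t in (0:ℝ)..S, ‖R t‖ ^ 2)
    (hVf : ∀ i, ∀ t ∈ Icc 0 S, w t ≠ 0 → ∫ y in (0:ℝ)..T, ‖f i (t + y)‖ ^ 2 ≤ V)
    (hVg : ∀ i, ∀ t ∈ Icc 0 S, w t ≠ 0 → ∫ y in (0:ℝ)..T, ‖g i (t + y)‖ ^ 2 ≤ V) :
    ∫⁻ γ, ENNReal.ofReal (‖∫ t in (0:ℝ)..S, (w t : ℂ) *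
      (∏ i, f i (t + γ i) - ∏ i, g i (t + γ i))‖ ^ 2)
      ∂(mP ι T) ≤ ENNReal.ofReal (4 ^ Fintype.card ι * K * V ^ (Fintype.card ι - 1) * S) := by
  set n := Fintype.card ι with hn
  have e : ι ≃ Fin n := Fintype.equivFin ι
  have hwc : Continuous fun t : ℝ => (w t : ℂ) := Complex.continuous_ofReal.comp hw
  have hcD : Continuous fun γ : ι → ℝ => ‖∫ t in (0:ℝ)..S, (w t : ℂ) *
      (∏ i, f i (t + γ i) - ∏ i, g i (t + γ i))‖ ^ 2 := by
    apply Continuous.pow
    apply Continuous.norm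
    apply intervalIntegral.continuous_parametric_intervalIntegral_of_continuous'
    unfold Function.uncurry
    fun_prop
  rw [lint_equiv e T _ (mor hcD)]
  have h1 := rep_finW {t | w t ≠ 0} hS hT hK hV n (fun j => f (e.symm j)) (fun j => g (e.symm j))
    (fun j => hf _) (fun j => hg _) (fun j => hop _) (fun j => hVf _) (fun j => hVg _)
    (fun t => (w t : ℂ)) hwc (fun t ht => by simpa using ht)
  have e1 : ∀ (h : ι → ℝ → ℂ) (γ : Fin n → ℝ) (t : ℝ),
      ∏ j, h (e.symm j) (t + γ j) = ∏ i, h i (t + γ (e i)) := by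
    intro h γ t
    rw [← Equiv.prod_comp e]
    simp
  simp only [e1] at h1
  refine h1.trans (ENNReal.ofReal_le_ofReal ?_)
  have h2 : ∫ t in (0:ℝ)..S, ‖(w t : ℂ)‖ ^ 2 ≤ S := by
    have h3 : ∫ t in (0:ℝ)..S, ‖(w t : ℂ)‖ ^ 2 ≤ ∫ t in (0:ℝ)..S, (1:ℝ) := by
      refine intervalIntegral.integral_mono_on hS ((hwc.norm.pow 2).intervalIntegrable _ _)
        (by simp) fun t _ => ?_
      rw [Complex.norm_real, Real.norm_eq_abs]
      exact pow_le_one₀ (abs_nonneg _) (hw1 t)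
    simpa using h3
  exact mul_le_mul (bb_le hK hV n) h2 (intervalIntegral.integral_nonneg hS fun t _ => sq_nonneg _)
    (by positivity)

/-- replacement of all the factors on a set `F` which is a decreasing limit of continuous weights -/
theorem repF (ι : Type) [Fintype ι] (f g : ι → ℝ → ℂ) (w : ℕ → ℝ → ℝ) (F : Set ℝ) (T S K V : ℝ)
    (hS : 0 ≤ S) (hT : 0 ≤ T)
    (hK : 0 ≤ K) (hV : 0 ≤ V) (hf : ∀ i, Continuous (f i)) (hg : ∀ i, Continuous (g i))
    (hw : ∀ n, Continuous (w n)) (hw1 : ∀ n t, |w n t| ≤ 1)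
    (hlim : ∀ t, Filter.Tendsto (fun n => w n t) Filter.atTop (nhds (F.indicator (fun _ => 1) t)))
    (hop : ∀ i, ∀ R : ℝ → ℂ, Continuous R →
      ∫ y in (0:ℝ)..T, ‖∫ t in (0:ℝ)..S, (f i (t + y) - g i (t + y)) * R t‖ ^ 2 ≤
        K * ∫ t in (0:ℝ)..S, ‖R t‖ ^ 2)
    (hVf : ∀ n, ∀ i, ∀ t ∈ Icc 0 S, w n t ≠ 0 → ∫ y in (0:ℝ)..T, ‖f i (t + y)‖ ^ 2 ≤ V)
    (hVg : ∀ n, ∀ i, ∀ t ∈ Icc 0 S, w n t ≠ 0 → ∫ y in (0:ℝ)..T, ‖g i (t + y)‖ ^ 2 ≤ V) :
    ∫⁻ γ, ENNReal.ofReal (‖∫ t in (0:ℝ)..S, F.indicator (fun t =>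
      (∏ i, f i (t + γ i) - ∏ i, g i (t + γ i))) t‖ ^ 2)
      ∂(mP ι T) ≤ ENNReal.ofReal (4 ^ Fintype.card ι * K * V ^ (Fintype.card ι - 1) * S) := by
  set D : ℕ → (ι → ℝ) → ENNReal := fun n γ => ENNReal.ofReal (‖∫ t in (0:ℝ)..S, (w n t : ℂ) *
      (∏ i, f i (t + γ i) - ∏ i, g i (t + γ i))‖ ^ 2) with hD
  have hb : ∀ n, ∫⁻ γ, D n γ ∂(mP ι T) ≤
      ENNReal.ofReal (4 ^ Fintype.card ι * K * V ^ (Fintype.card ι - 1) * S) := fun n =>
    repW ι f g (w n) T S K V hS hT hK hV hf hg (hw n) (hw1 n) hop (hVf n) (hVg n)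
  have hmeas : ∀ n, Measurable (D n) := by
    intro n
    have hwc : Continuous fun t : ℝ => (w n t : ℂ) := Complex.continuous_ofReal.comp (hw n)
    refine mor ?_
    apply Continuous.pow
    apply Continuous.norm
    apply intervalIntegral.continuous_parametric_intervalIntegral_of_continuous'
    unfold Function.uncurry
    fun_prop
  have hpt : ∀ γ : ι → ℝ, Filter.Tendsto (fun n => D n γ) Filter.atTop
      (nhds (ENNReal.ofReal (‖∫ t in (0:ℝ)..S, F.indicator (fun t =>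
      (∏ i, f i (t + γ i) - ∏ i, g i (t + γ i))) t‖ ^ 2))) := by
    intro γ
    have hc : Continuous fun t : ℝ => (∏ i, f i (t + γ i) - ∏ i, g i (t + γ i)) := by fun_prop
    refine (ENNReal.continuous_ofReal.tendsto _).comp ((Filter.Tendsto.norm ?_).pow 2)
    refine intervalIntegral.tendsto_integral_filter_of_dominated_convergence
      (fun t => ‖(∏ i, f i (t + γ i) - ∏ i, g i (t + γ i))‖) ?_ ?_ (hc.norm.intervalIntegrable _ _) ?_
    · exact Filter.Eventually.of_forall fun n =>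
        ((Complex.continuous_ofReal.comp (hw n)).mul hc).aestronglyMeasurable
    · refine Filter.Eventually.of_forall fun n => Filter.Eventually.of_forall fun t _ => ?_
      rw [norm_mul, Complex.norm_real, Real.norm_eq_abs]
      exact mul_le_of_le_one_left (norm_nonneg _) (hw1 n t)
    · refine Filter.Eventually.of_forall fun t _ => ?_
      have h1 := (Complex.continuous_ofReal.tendsto _).comp (hlim t)
      have h2 := h1.mul_const (∏ i, f i (t + γ i) - ∏ i, g i (t + γ i))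
      have e3 : ((F.indicator (fun _ => (1:ℝ)) t : ℝ) : ℂ) *
          (∏ i, f i (t + γ i) - ∏ i, g i (t + γ i)) =
          F.indicator (fun t => (∏ i, f i (t + γ i) - ∏ i, g i (t + γ i))) t := by
        by_cases ht : t ∈ F
        · simp [ht]
        · simp [ht]
      rw [e3] at h2
      exact h2
  calc ∫⁻ γ, ENNReal.ofReal (‖∫ t in (0:ℝ)..S, F.indicator (fun t =>
      (∏ i, f i (t + γ i) - ∏ i, g i (t + γ i))) t‖ ^ 2) ∂(mP ι T)
      = ∫⁻ γ, Filter.liminf (fun n => D n γ) Filter.atTop ∂(mP ι T) := by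
        refine lintegral_congr fun γ => ?_
        exact (hpt γ).liminf_eq.symm
    _ ≤ Filter.liminf (fun n => ∫⁻ γ, D n γ ∂(mP ι T)) Filter.atTop := lintegral_liminf_le hmeas
    _ ≤ _ := by
        refine Filter.liminf_le_of_le (by isBoundedDefault) fun b hb' => ?_
        obtain ⟨n, hn⟩ := hb'.exists
        exact hn.trans (hb n)

end

end Pool.Agent.H3.SE
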