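import Pool.Agent.H3.SE.Rep
import Pool.Agent.H3.SQ.All
import Pool.Graph.R_seed8.TH509.GS.DIAG

set_option autoImplicit false

/-! The set where the local mean squares are small; replacement of the factors there. -/

namespace Pool.Agent.H3.SE

open Complex Filter Topology MeasureTheory Set
open Pool.Agent.TH612.CF Pool.Agent.TH612.GS Pool.Agent.T2H54.SB
open scoped ENNReal

noncomputable section

variable {k : ℕ}

/-- the local mean square of zeta over the window `[t + u, t + u + H]` -/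
def VV (H u t : ℝ) : ℝ := ∫ y in (0:ℝ)..H, ‖z (t + (u + y))‖ ^ 2

lemma VV_cont (H u : ℝ) : Continuous (VV H u) := by
  unfold VV
  have hz : Continuous fun u : ℝ => ‖z u‖ ^ 2 := z_cont.norm.pow 2
  apply intervalIntegral.continuous_parametric_intervalIntegral_of_continuous'
  exact hz.comp (by fun_prop : Continuous fun p : ℝ × ℝ => p.1 + (u + p.2))

/-- the good heights -/
def GF (H V0 : ℝ) (U : Fin k ⊕ Fin k → ℝ) : Set ℝ := {t | ∀ i, VV H (U i) t ≤ V0}

lemma GF_closed (H V0 : ℝ) (U : Fin k ⊕ Fin k → ℝ) : IsClosed (GF H V0 U) := by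
  have : GF H V0 U = ⋂ i, {t | VV H (U i) t ≤ V0} := by ext t; simp [GF]
  rw [this]
  exact isClosed_iInter fun i => isClosed_le (VV_cont H (U i)) continuous_const

/-- the weights -/
def ww (H V0 : ℝ) (U : Fin k ⊕ Fin k → ℝ) (n : ℕ) (t : ℝ) : ℝ :=
  ∏ i, max 0 (min 1 (1 - (n + 1) * (VV H (U i) t - V0)))

lemma ww_cont (H V0 : ℝ) (U : Fin k ⊕ Fin k → ℝ) (n : ℕ) : Continuous (ww H V0 U n) := by
  unfold ww
  refine continuous_finsetProd _ fun i _ => ?_
  have := VV_cont H (U i)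
  fun_prop

lemma ww_le (H V0 : ℝ) (U : Fin k ⊕ Fin k → ℝ) (n : ℕ) (t : ℝ) : |ww H V0 U n t| ≤ 1 := by
  unfold ww
  rw [Finset.abs_prod]
  refine Finset.prod_le_one (fun _ _ => abs_nonneg _) fun i _ => ?_
  rw [abs_of_nonneg (le_max_left _ _)]
  exact max_le (by norm_num) (min_le_left _ _)

lemma ww_supp {H V0 : ℝ} {U : Fin k ⊕ Fin k → ℝ} {n : ℕ} {t : ℝ} (h : ww H V0 U n t ≠ 0)
    (i : Fin k ⊕ Fin k) : VV H (U i) t ≤ V0 + 1 := by
  unfold ww at h
  have h1 := (Finset.prod_ne_zero_iff.1 h) i (Finset.mem_univ i)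
  by_contra hcon
  rw [not_le] at hcon
  apply h1
  refine max_eq_left ((min_le_right _ _).trans ?_)
  have hn : (0:ℝ) ≤ n := Nat.cast_nonneg n
  nlinarith

lemma ww_lim (H V0 : ℝ) (U : Fin k ⊕ Fin k → ℝ) (t : ℝ) :
    Tendsto (fun n => ww H V0 U n t) atTop (nhds ((GF H V0 U).indicator (fun _ => 1) t)) := by
  by_cases ht : t ∈ GF H V0 U
  · rw [indicator_of_mem ht]
    have : (fun n => ww H V0 U n t) = fun _ => 1 := by
      funext n
      unfold ww
      refine Finset.prod_eq_one fun i _ => ?_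
      have h1 := ht i
      have hn : (0:ℝ) ≤ n := Nat.cast_nonneg n
      have h2 : (1:ℝ) ≤ 1 - (n + 1) * (VV H (U i) t - V0) := by nlinarith
      rw [min_eq_left h2]
      norm_num
    rw [this]
    exact tendsto_const_nhds
  · rw [indicator_of_notMem ht]
    unfold GF at ht
    simp only [mem_ofPred_eq, not_forall, not_le] at ht
    obtain ⟨i, hi⟩ := ht
    have hd : 0 < VV H (U i) t - V0 := by linarith
    obtain ⟨n0, hn0⟩ := exists_nat_gt (1 / (VV H (U i) t - V0))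
    refine tendsto_const_nhds.congr' ?_
    filter_upwards [eventually_ge_atTop n0] with n hn
    unfold ww
    symm
    refine Finset.prod_eq_zero (Finset.mem_univ i) ?_
    refine max_eq_left ((min_le_right _ _).trans ?_)
    rw [div_lt_iff₀ hd] at hn0
    have h1 : (n0:ℝ) ≤ n := by exact_mod_cast hn
    nlinarith

/-- the difference of the products on the set `F` -/
def AE (F : Set ℝ) (N : ℕ) (S : ℝ) (γ : Fin k ⊕ Fin k → ℝ) : ℂ :=
  ∫ t in (0:ℝ)..S, F.indicator (fun t => (∏ j : Fin k, z (t + γ (Sum.inl j)) *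
      (starRingEnd ℂ) (z (t + γ (Sum.inr j)))) -
    ∏ j : Fin k, PN N (t + γ (Sum.inl j)) * (starRingEnd ℂ) (PN N (t + γ (Sum.inr j)))) t

/-- Z1 on a box, restricted to the good heights -/
theorem z1E (k : ℕ) : ∃ C T₀ : ℝ, 0 < C ∧ 3 ≤ T₀ ∧ ∀ (T H S V0 V : ℝ) (N : ℕ)
    (U : Fin k ⊕ Fin k → ℝ), T₀ ≤ T → 1 ≤ H → (∀ i, 0 ≤ U i ∧ U i + H ≤ T) →
    0 ≤ S → S ≤ T → 1 ≤ N → (N:ℝ) ≤ T → 0 ≤ V → V0 + 1 ≤ V →
    (∀ v, 0 ≤ v → v ≤ 2 * T → ∫ y in (0:ℝ)..H, ‖PN N (v + y)‖ ^ 2 ≤ V) →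
    ∫⁻ γ, ENNReal.ofReal (‖AE (GF H V0 U) N S (U + γ)‖ ^ 2) ∂(mP (Fin k ⊕ Fin k) H) ≤
      ENNReal.ofReal (C * Real.log T ^ 4 * (H * T / N + T) * T * V ^ (2 * k - 1)) := by
  obtain ⟨C1, T1, hC1, hT1, h1⟩ := pOPL
  rcases Nat.eq_zero_or_pos k with hk | hk
  · subst hk
    refine ⟨1, 3, by norm_num, le_rfl, fun T H S V0 V N U hT _ _ _ _ _ _ _ _ _ => ?_⟩
    simp [AE]
  refine ⟨4 ^ (2 * k) * C1, T1, by positivity, hT1, fun T H S V0 V N U hT hH hU hS0 hSL
    hN hNT hV0 hVV hVP => ?_⟩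
  have hT3 : 3 ≤ T := hT1.trans hT
  have hT0 : 0 < T := by linarith
  have hH0 : 0 ≤ H := by linarith
  have hN0 : (0:ℝ) < N := by exact_mod_cast hN
  have hlog : 0 ≤ Real.log T := Real.log_nonneg (by linarith)
  set K : ℝ := C1 * Real.log T ^ 4 * (H * T / N + T) with hK
  have hK0 : 0 ≤ K := by positivity
  have e0 : ∀ u t y : ℝ, u + (t + y) = t + (u + y) := fun u t y => by ring
  have key := repF (Fin k ⊕ Fin k) (fun i v => fz k z i (U i + v)) (fun i v => fz k (PN N) i (U i + v))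
    (ww H V0 U) (GF H V0 U) H S K V hS0 hH0 hK0 hV0 (fun i => z_shift_cont (fz_cont z_cont i) _)
    (fun i => z_shift_cont (fz_cont (PN_cont N) i) _) (ww_cont H V0 U) (ww_le H V0 U)
    (ww_lim H V0 U) ?_ ?_ ?_
  · have e2 : ∀ (γ : Fin k ⊕ Fin k → ℝ) (f : ℝ → ℂ) (t : ℝ), ∏ i, fz k f i (U i + (t + γ i)) =
          ∏ j : Fin k, f (t + (U + γ) (Sum.inl j)) *
            (starRingEnd ℂ) (f (t + (U + γ) (Sum.inr j))) := by
      intro γ f t
      rw [← fz_prod f t (U + γ)]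
      refine Finset.prod_congr rfl fun i _ => ?_
      rw [e0, Pi.add_apply]
    simp only [e2] at key
    unfold AE
    refine key.trans (ENNReal.ofReal_le_ofReal ?_)
    have hc : Fintype.card (Fin k ⊕ Fin k) = 2 * k := by
      rw [Fintype.card_sum, Fintype.card_fin]; ring
    rw [hc, hK]
    calc (4:ℝ) ^ (2 * k) * (C1 * Real.log T ^ 4 * (H * T / N + T)) * V ^ (2 * k - 1) * S
        ≤ 4 ^ (2 * k) * (C1 * Real.log T ^ 4 * (H * T / N + T)) * V ^ (2 * k - 1) * T := by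
          gcongr
      _ = _ := by ring
  · intro i R hR
    obtain ⟨hU0, hUT⟩ := hU i
    simp only [e0]
    cases i with
    | inl j =>
      have := h1 T H T (U (Sum.inl j)) S N R hT hH hU0 hUT hT0 le_rfl hS0 hSL hN hNT hR
      simpa [fz] using this
    | inr j =>
      have := h1 T H T (U (Sum.inr j)) S N (fun t => (starRingEnd ℂ) (R t)) hT hH hU0 hUT hT0 le_rfl
        hS0 hSL hN hNT (Complex.continuous_conj.comp hR)
      simp only [Complex.norm_conj] at this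
      refine le_trans (le_of_eq ?_) this
      refine intervalIntegral.integral_congr fun y _ => ?_
      have e3 : (∫ t in (0:ℝ)..S, (fz k z (Sum.inr j) (t + (U (Sum.inr j) + y)) -
          fz k (PN N) (Sum.inr j) (t + (U (Sum.inr j) + y))) * R t) =
          (starRingEnd ℂ) (∫ t in (0:ℝ)..S, (z (t + (U (Sum.inr j) + y)) -
            PN N (t + (U (Sum.inr j) + y))) * (starRingEnd ℂ) (R t)) := by
        rw [← int_conj]
        refine intervalIntegral.integral_congr fun t _ => ?_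
        simp only [fz, Sum.elim_inr, map_mul, map_sub, Complex.conj_conj]
      change ‖_‖ ^ 2 = ‖_‖ ^ 2
      rw [e3, Complex.norm_conj]
  · intro n i t ht hw
    have h2 := ww_supp hw i
    unfold VV at h2
    simp only [fz_norm, e0]
    linarith
  · intro n i t ht _
    obtain ⟨hU0, hUT⟩ := hU i
    simp only [fz_norm, ← add_assoc]
    exact hVP _ (by linarith [ht.1]) (by linarith [ht.2])

/-- Cauchy-Schwarz -/
lemma csM {μ : Measure ℝ} [IsFiniteMeasure μ] {g : ℝ → ℝ} (hg : Integrable g μ)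
    (hg2 : Integrable (fun t => g t ^ 2) μ) : (∫ t, g t ∂μ) ^ 2 ≤ μ.real univ * ∫ t, g t ^ 2 ∂μ := by
  set M := ∫ t, g t ∂μ with hM
  set m := μ.real univ with hm
  have hm0 : 0 ≤ m := measureReal_nonneg
  rcases eq_or_lt_of_le hm0 with h0 | h0
  · have h1 : μ = 0 := by
      rw [← Measure.measure_univ_eq_zero]
      have : (μ univ).toReal = 0 := h0.symm
      rcases (ENNReal.toReal_eq_zero_iff _).1 this with h | h
      · exact h
      · exact absurd h (measure_ne_top μ univ)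
    rw [hM, h1]; simp
  · have h1 : 0 ≤ ∫ t, (g t - M / m) ^ 2 ∂μ := integral_nonneg fun t => sq_nonneg _
    have h2 : ∫ t, (g t - M / m) ^ 2 ∂μ = (∫ t, g t ^ 2 ∂μ) - 2 * (M / m) * M + (M / m) ^ 2 * m := by
      have e : ∀ t, (g t - M / m) ^ 2 = g t ^ 2 - 2 * (M / m) * g t + (M / m) ^ 2 := fun t => by ring
      simp_rw [e]
      have i0 : Integrable (fun t => 2 * (M / m) * g t) μ := hg.const_mul _
      have i1 : Integrable (fun t => g t ^ 2 - 2 * (M / m) * g t) μ := hg2.sub i0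
      rw [integral_add i1 (integrable_const _),
        integral_sub hg2 i0, integral_const_mul, integral_const, smul_eq_mul]
      ring
    rw [h2] at h1
    have h3 : (M / m) ^ 2 * m = M ^ 2 / m := by field_simp
    have h4 : 2 * (M / m) * M = 2 * (M ^ 2 / m) := by ring
    rw [h3, h4] at h1
    have h5 : M ^ 2 / m ≤ ∫ t, g t ^ 2 ∂μ := by linarith
    rw [div_le_iff₀ h0] at h5
    linarith

/-- the mean square of the integral of a product over a set of heights -/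
theorem rep2F (ι : Type) [Fintype ι] (f : ι → ℝ → ℂ) (F : Set ℝ) (hF : MeasurableSet F)
    (T A B V m : ℝ) (hT : 0 ≤ T)
    (hAB : A ≤ B) (hV : 0 ≤ V) (hm : 0 ≤ m) (hf : ∀ i, Continuous (f i))
    (hvol : volume (F ∩ Icc A B) ≤ ENNReal.ofReal m)
    (hVf : ∀ i, ∀ t ∈ Icc A B, t ∈ F → ∫ y in (0:ℝ)..T, ‖f i (t + y)‖ ^ 2 ≤ V) :
    ∫⁻ γ, ENNReal.ofReal ((∫ t in A..B, F.indicator (fun t => ‖∏ i, f i (t + γ i)‖) t) ^ 2)
      ∂(mP ι T) ≤
      ENNReal.ofReal (m ^ 2 * V ^ Fintype.card ι) := by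
  open Pool.Agent.TH521.GS in
  set n := Fintype.card ι with hn
  have e : ι ≃ Fin n := Fintype.equivFin ι
  set μ : Measure ℝ := volume.restrict (Ioc A B ∩ F) with hμ
  have hμfin : μ univ ≤ ENNReal.ofReal m := by
    rw [hμ, Measure.restrict_apply_univ]
    refine (measure_mono ?_).trans hvol
    exact fun t ht => ⟨ht.2, Ioc_subset_Icc_self ht.1⟩
  have : IsFiniteMeasure μ := ⟨hμfin.trans_lt ENNReal.ofReal_lt_top⟩
  have hcont : ∀ γ : ι → ℝ, Continuous fun t => ‖∏ i, f i (t + γ i)‖ := fun γ => by fun_prop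
  have hint : ∀ γ : ι → ℝ, Integrable (fun t => ‖∏ i, f i (t + γ i)‖) μ := by
    intro γ
    have h1 : IntegrableOn (fun t => ‖∏ i, f i (t + γ i)‖) (Icc A B) volume :=
      (hcont γ).continuousOn.integrableOn_Icc
    exact h1.mono_set (inter_subset_left.trans Ioc_subset_Icc_self)
  have hint2 : ∀ γ : ι → ℝ, Integrable (fun t => ‖∏ i, f i (t + γ i)‖ ^ 2) μ := by
    intro γ
    have h1 : IntegrableOn (fun t => ‖∏ i, f i (t + γ i)‖ ^ 2) (Icc A B) volume :=
      ((hcont γ).pow 2).continuousOn.integrableOn_Icc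
    exact h1.mono_set (inter_subset_left.trans Ioc_subset_Icc_self)
  have e1 : ∀ γ : ι → ℝ, (∫ t in A..B, F.indicator (fun t => ‖∏ i, f i (t + γ i)‖) t) =
      ∫ t, ‖∏ i, f i (t + γ i)‖ ∂μ := by
    intro γ
    rw [intervalIntegral.integral_of_le hAB, setIntegral_indicator hF]
  have hmr : μ.real univ ≤ m := by
    have := ENNReal.toReal_mono ENNReal.ofReal_ne_top hμfin
    rwa [ENNReal.toReal_ofReal hm] at this
  have hle : ∀ γ : ι → ℝ, ENNReal.ofReal ((∫ t in A..B, F.indicator (fun t => ‖∏ i, f i (t + γ i)‖) t) ^ 2) ≤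
      ENNReal.ofReal m * ∫⁻ t, ENNReal.ofReal (‖∏ i, f i (t + γ i)‖ ^ 2) ∂μ := by
    intro γ
    rw [e1, ← ofReal_integral_eq_lintegral_ofReal (hint2 γ) (Eventually.of_forall fun t => sq_nonneg _),
      ← ENNReal.ofReal_mul hm]
    apply ENNReal.ofReal_le_ofReal
    refine (csM (hint γ) (hint2 γ)).trans ?_
    exact mul_le_mul_of_nonneg_right hmr (integral_nonneg fun t => sq_nonneg _)
  refine (lintegral_mono hle).trans ?_
  rw [lintegral_const_mul']
  · have hmeas : Measurable (Function.uncurry fun (γ : ι → ℝ) (t : ℝ) =>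
        ENNReal.ofReal (‖∏ i, f i (t + γ i)‖ ^ 2)) := by
      refine Pool.Agent.TH521.GS.mor ?_
      fun_prop
    rw [lintegral_lintegral_swap hmeas.aemeasurable]
    have hin : ∀ t ∈ Ioc A B ∩ F, ∫⁻ γ, ENNReal.ofReal (‖∏ i, f i (t + γ i)‖ ^ 2) ∂(mP ι T) ≤
        ENNReal.ofReal (V ^ n) := by
      intro t ht
      have hc : Continuous fun γ : ι → ℝ => ‖∏ i, f i (t + γ i)‖ ^ 2 := by fun_prop
      rw [Pool.Agent.TH521.GS.lint_equiv e T _ (Pool.Agent.TH521.GS.mor hc)]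
      have e2 : ∀ γ : Fin n → ℝ, ‖∏ i, f i (t + γ (e i))‖ ^ 2 = ∏ j, ‖f (e.symm j) (t + γ j)‖ ^ 2 := by
        intro γ
        rw [← Equiv.prod_comp e, norm_prod, Finset.prod_pow]
        simp
      simp_rw [e2]
      exact Pool.Agent.TH521.GS.pt hT hV t n (fun j => f (e.symm j)) (fun j => hf _) fun j =>
        hVf _ t (Ioc_subset_Icc_self ht.1) ht.2
    have hin2 : ∫⁻ t, ∫⁻ γ, ENNReal.ofReal (‖∏ i, f i (t + γ i)‖ ^ 2) ∂(mP ι T) ∂μ ≤
        ENNReal.ofReal (V ^ n) * ENNReal.ofReal m := by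
      refine (setLIntegral_mono' (measurableSet_Ioc.inter hF) hin).trans ?_
      rw [lintegral_const]
      exact mul_le_mul' le_rfl hμfin
    refine (mul_le_mul' le_rfl hin2).trans (le_of_eq ?_)
    rw [← ENNReal.ofReal_mul (by positivity), ← ENNReal.ofReal_mul hm]
    congr 1
    ring
  · exact ENNReal.ofReal_ne_top

end

end Pool.Agent.H3.SE
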